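import Pool.Agent.V8H95.BW.Det
import Pool.Agent.V8H95.MF.Lift

/-!
The averaged wave on the torus.
-/

set_option autoImplicit false
set_option linter.unusedSectionVars false

open Complex MeasureTheory
open scoped BigOperators ComplexConjugate

namespace Pool.Agent.V8H95.BW

open Pool.Agent.H4R2.AE Pool.Agent.V8H99.AD Pool.Agent.V8H95.MF

variable {d L : ℕ} [NeZero L]

theorem pow_inter {X : Type*} [NormedAddCommGroup X] [InnerProductSpace ℂ X] [CompleteSpace X]
    (S A B : X →L[ℂ] X) (h : ∀ f, S (A f) = B (S f)) (c : ℂ) (n : ℕ) (f : X) :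
    S (((c • A) ^ n) f) = ((c • B) ^ n) (S f) := by
  induction n generalizing f with
  | zero => rfl
  | succ n ih =>
    have e1 : ((c • A) ^ (n + 1)) f = ((c • A) ^ n) (c • A f) := by
      rw [pow_succ]; rfl
    have e2 : ((c • B) ^ (n + 1)) (S f) = ((c • B) ^ n) (c • B (S f)) := by
      rw [pow_succ]; rfl
    rw [e1, e2, ih, map_smul, h f]

theorem ev_inter {X : Type*} [NormedAddCommGroup X] [InnerProductSpace ℂ X] [CompleteSpace X]
    (S A B : X →L[ℂ] X) (h : ∀ f, S (A f) = B (S f)) (s : ℝ) (f : X) :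
    S (ev A s f) = ev B s (S f) := by
  have h1 : HasSum (fun n : ℕ => ((n.factorial : ℂ)⁻¹) • ((-(s : ℂ) * Complex.I) • A) ^ n)
      (ev A s) := NormedSpace.exp_series_hasSum_exp' (𝕂 := ℂ) ((-(s : ℂ) * Complex.I) • A)
  have h2 : HasSum (fun n : ℕ => ((n.factorial : ℂ)⁻¹) • ((-(s : ℂ) * Complex.I) • B) ^ n)
      (ev B s) := NormedSpace.exp_series_hasSum_exp' (𝕂 := ℂ) ((-(s : ℂ) * Complex.I) • B)
  have h3 : HasSum (fun n : ℕ => S ((((n.factorial : ℂ)⁻¹) • ((-(s : ℂ) * Complex.I) • A) ^ n) f))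
      (S (ev A s f)) := (h1.mapL (ContinuousLinearMap.apply ℂ X f)).mapL S
  have h4 : HasSum (fun n : ℕ => (((n.factorial : ℂ)⁻¹) • ((-(s : ℂ) * Complex.I) • B) ^ n) (S f))
      (ev B s (S f)) := h2.mapL (ContinuousLinearMap.apply ℂ X (S f))
  have h5 : (fun n : ℕ => S ((((n.factorial : ℂ)⁻¹) • ((-(s : ℂ) * Complex.I) • A) ^ n) f)) =
      fun n : ℕ => (((n.factorial : ℂ)⁻¹) • ((-(s : ℂ) * Complex.I) • B) ^ n) (S f) := by
    funext n
    rw [smul_apply, smul_apply, map_smul]
    congr 1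
    exact pow_inter S A B h _ n f
  rw [h5] at h3
  exact h3.unique h4

theorem shift_law (μ : Measure ℝ) [IsProbabilityMeasure μ] (e : T d L ≃ T d L) :
    MeasurePreserving (fun (V : T d L → ℝ) (x : T d L) => V (e x))
      (Measure.pi fun _ : T d L => μ) (Measure.pi fun _ : T d L => μ) := by
  have hm : Measurable (fun (V : T d L → ℝ) (x : T d L) => V (e x)) :=
    measurable_pi_lambda _ fun x => measurable_pi_apply (e x)
  refine ⟨hm, (Measure.pi_eq fun A hA => ?_).symm⟩
  rw [Measure.map_apply hm (MeasurableSet.univ_pi hA)]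
  have h1 : (fun (V : T d L → ℝ) (x : T d L) => V (e x)) ⁻¹' Set.univ.pi A =
      Set.univ.pi fun y => A (e.symm y) := by
    ext V
    simp only [Set.mem_preimage, Set.mem_pi, Set.mem_univ, forall_true_left]
    constructor
    · intro h y
      have := h (e.symm y)
      rwa [e.apply_symm_apply] at this
    · intro h x
      have := h (e x)
      rwa [e.symm_apply_apply] at this
  rw [h1, Measure.pi_pi]
  exact Equiv.prod_comp e.symm fun x => μ (A x)

theorem HC_shift (lam : ℝ) (V : T d L → ℝ) (i : Fin d) (f : XT d L) :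
    Sh i (HC lam V f) = HC lam (fun x => V (x + Pi.single i 1)) (Sh i f) := by
  ext x
  rw [Sh_apply, HC_apply, HC_apply]
  unfold Bf
  simp only [Sh_apply]
  congr 1
  refine Finset.sum_congr rfl fun j _ => ?_
  have e1 : x + Pi.single i 1 + Pi.single j 1 = x + Pi.single j 1 + Pi.single i 1 := by abel
  have e2 : x + Pi.single i 1 - Pi.single j 1 = x - Pi.single j 1 + Pi.single i 1 := by abel
  rw [e1, e2]

/-- the averaged wave -/
noncomputable def mav (μ : Measure ℝ) (lam s : ℝ) (u : XT d L) : XT d L :=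
  ∫ V, ev (HC lam V) s u ∂(Measure.pi fun _ : T d L => μ)

section
variable (μ : Measure ℝ) [IsProbabilityMeasure μ]

theorem ev_V_cont (lam s : ℝ) (u : XT d L) :
    Continuous fun V : T d L → ℝ => ev (HC lam V) s u :=
  (ev_cont_V lam s).clm_apply continuous_const

theorem ev_int (lam s : ℝ) (u : XT d L) :
    Integrable (fun V : T d L → ℝ => ev (HC lam V) s u) (Measure.pi fun _ : T d L => μ) :=
  Integrable.of_bound (C := ‖u‖) (ev_V_cont lam s u).aestronglyMeasurable
    (Filter.Eventually.of_forall fun V => (evn lam V s u).le)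

theorem mav_norm (lam s : ℝ) (u : XT d L) : ‖mav μ lam s u‖ ≤ ‖u‖ := by
  unfold mav
  refine (norm_integral_le_integral_norm _).trans (le_of_eq ?_)
  simp only [evn]
  simp

theorem mav_cont (lam : ℝ) (u : XT d L) : Continuous fun s : ℝ => mav μ lam s u := by
  unfold mav
  refine continuous_of_dominated (bound := fun _ => ‖u‖)
    (fun s => (ev_V_cont lam s u).aestronglyMeasurable)
    (fun s => Filter.Eventually.of_forall fun V => (evn lam V s u).le) (integrable_const _)
    (Filter.Eventually.of_forall fun V => ev_cont_s lam V u)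

theorem mav_sub (lam s : ℝ) (u v : XT d L) : mav μ lam s (u - v) = mav μ lam s u - mav μ lam s v := by
  unfold mav
  rw [← integral_sub (ev_int μ lam s u) (ev_int μ lam s v)]
  congr 1
  funext V
  rw [map_sub]

theorem mav_smul (lam s : ℝ) (c : ℂ) (u : XT d L) : mav μ lam s (c • u) = c • mav μ lam s u := by
  unfold mav
  rw [← integral_smul]
  congr 1
  funext V
  rw [map_smul]

theorem mav_shift (lam s : ℝ) (u : XT d L) (i : Fin d) :
    Sh i (mav μ lam s u) = mav μ lam s (Sh i u) := by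
  unfold mav
  rw [← ContinuousLinearMap.integral_comp_comm _ (ev_int μ lam s u)]
  have h1 : ∀ V : T d L → ℝ, Sh i (ev (HC lam V) s u) =
      ev (HC lam (fun x => V (x + Pi.single i 1))) s (Sh i u) := fun V =>
    ev_inter (Sh i) (HC lam V) (HC lam (fun x => V (x + Pi.single i 1)))
      (HC_shift lam V i) s u
  simp only [h1]
  have h2 := shift_law (d := d) (L := L) μ (Equiv.addRight (Pi.single i 1))
  rw [← h2.map_eq]
  rw [integral_map h2.measurable.aemeasurable
    (ev_V_cont lam s (Sh i u)).aestronglyMeasurable]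
  rw [h2.map_eq]
  rfl

/-- the average is the best constant -/
theorem best {Ω : Type*} [MeasurableSpace Ω] (P : Measure Ω) [IsProbabilityMeasure P]
    (Y : Ω → XT d L) (hY : Integrable Y P) (C : ℝ) (hC : ∀ ω, ‖Y ω‖ ≤ C) (c : XT d L) :
    ∫ ω, ‖Y ω - ∫ ω', Y ω' ∂P‖ ^ 2 ∂P ≤ ∫ ω, ‖Y ω - c‖ ^ 2 ∂P := by
  set E := ∫ ω', Y ω' ∂P with hE
  have hsq : ∀ a : XT d L, Integrable (fun ω => ‖Y ω - a‖ ^ 2) P := by
    intro a
    refine Integrable.of_bound (C := (C + ‖a‖) ^ 2)
      ((hY.aestronglyMeasurable.sub aestronglyMeasurable_const).norm.pow 2)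
      (Filter.Eventually.of_forall fun ω => ?_)
    rw [Real.norm_eq_abs, abs_of_nonneg (by positivity)]
    exact pow_le_pow_left₀ (norm_nonneg _) ((norm_sub_le _ _).trans (by gcongr; exact hC ω)) 2
  have hYE : Integrable (fun ω => Y ω - E) P := hY.sub (integrable_const _)
  have hin : ∫ ω, inner ℂ (E - c) (Y ω - E) ∂P = 0 := by
    rw [integral_inner hYE, integral_sub hY (integrable_const _)]
    simp [← hE]
  have hin2 : ∫ ω, (inner ℂ (E - c) (Y ω - E)).re ∂P = 0 := by
    have h1 : ∫ ω, (inner ℂ (E - c) (Y ω - E)).re ∂P =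
        (∫ ω, inner ℂ (E - c) (Y ω - E) ∂P).re := by
      have := Complex.reCLM.integral_comp_comm (hYE.const_inner (𝕜 := ℂ) (E - c))
      exact this
    rw [h1, hin]
    rfl
  have hre : Integrable (fun ω => (inner ℂ (E - c) (Y ω - E)).re) P :=
    (hYE.const_inner (𝕜 := ℂ) (E - c)).re
  have hpt : ∀ ω, ‖Y ω - c‖ ^ 2 = (‖Y ω - E‖ ^ 2 + 2 * (inner ℂ (E - c) (Y ω - E)).re) +
      ‖E - c‖ ^ 2 := by
    intro ω
    have e : Y ω - c = (E - c) + (Y ω - E) := by abel
    rw [e, @norm_add_sq ℂ]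
    simp only [RCLike.re_to_complex]
    ring
  have h2 : ∫ ω, ‖Y ω - c‖ ^ 2 ∂P = ∫ ω, ‖Y ω - E‖ ^ 2 ∂P + ‖E - c‖ ^ 2 := by
    simp only [hpt]
    have i1 : Integrable (fun ω => 2 * (inner ℂ (E - c) (Y ω - E)).re) P := hre.const_mul 2
    have i2 : Integrable (fun ω => ‖Y ω - E‖ ^ 2 + 2 * (inner ℂ (E - c) (Y ω - E)).re) P :=
      (hsq E).add i1
    rw [integral_add i2 (integrable_const _), integral_add (hsq E) i1,
      integral_const_mul, hin2]
    simp
  rw [h2]
  have : 0 ≤ ‖E - c‖ ^ 2 := by positivity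
  linarith

end

/-- the mass at distance at least `r` from `a` -/
noncomputable def farm (a : Fin d → ℝ) (r : ℝ) (φ : XT d L) : ℝ :=
  ∑ x, if r ^ 2 ≤ ∑ j, (X j x - a j) ^ 2 then ‖φ x‖ ^ 2 else 0

theorem farm_le_norm (a : Fin d → ℝ) (r : ℝ) (φ : XT d L) : farm a r φ ≤ ‖φ‖ ^ 2 := by
  rw [← mass_sum]
  unfold farm
  refine Finset.sum_le_sum fun x _ => ?_
  split_ifs
  · exact le_rfl
  · positivity

theorem farm_nonneg (a : Fin d → ℝ) (r : ℝ) (φ : XT d L) : 0 ≤ farm a r φ :=
  Finset.sum_nonneg fun x _ => by split_ifs <;> positivity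

theorem farm_am (a : Fin d → ℝ) (r : ℝ) (hr : 0 < r) (φ : XT d L) :
    farm a r φ ≤ Am a φ / r ^ 2 := by
  rw [le_div_iff₀ (by positivity)]
  unfold farm Am
  rw [Finset.sum_mul]
  refine Finset.sum_le_sum fun x _ => ?_
  split_ifs with h
  · rw [mul_comm]
    gcongr
  · rw [zero_mul]
    apply mul_nonneg (Finset.sum_nonneg fun _ _ => by positivity) (by positivity)

theorem farm_add (a : Fin d → ℝ) (r : ℝ) (φ χ : XT d L) :
    farm a r (φ + χ) ≤ 2 * farm a r φ + 2 * ‖χ‖ ^ 2 := by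
  refine le_trans ?_ (add_le_add_right (mul_le_mul_of_nonneg_left (farm_le_norm a r χ)
    (by norm_num)) _)
  unfold farm
  rw [Finset.mul_sum, Finset.mul_sum, ← Finset.sum_add_distrib]
  refine Finset.sum_le_sum fun x _ => ?_
  split_ifs
  · have h1 : ‖(φ + χ) x‖ ≤ ‖φ x‖ + ‖χ x‖ := by
      rw [PiLp.add_apply]
      exact norm_add_le _ _
    have h2 := pow_le_pow_left₀ (norm_nonneg _) h1 2
    nlinarith [sq_nonneg (‖φ x‖ - ‖χ x‖)]
  · simp

end Pool.Agent.V8H95.BW
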