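import Pool.Agent.V8H95.MF.Dress

/-!
Currents on the torus.
-/

set_option autoImplicit false
set_option linter.unusedSectionVars false

open Complex MeasureTheory
open scoped BigOperators ComplexConjugate

namespace Pool.Agent.V8H95.BW

open Pool.Agent.H4R2.AE Pool.Agent.V8H99.AD Pool.Agent.V8H95.MF

variable {d L : ℕ} [NeZero L]

/-- the weighted mass -/
noncomputable def wm (F : T d L → ℝ) (φ : XT d L) : ℝ := ∑ x, F x * ‖φ x‖ ^ 2

/-- the current through an edge -/
noncomputable def J (φ : XT d L) (i : Fin d) (x : T d L) : ℝ :=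
  (conj (φ x) * φ (x + Pi.single i 1)).im

theorem conj_im_swap (a b : ℂ) : (conj a * b).im = -(conj b * a).im := by
  simp only [Complex.mul_im, Complex.conj_re, Complex.conj_im]
  ring

theorem conj_im_self (a : ℂ) : (conj a * a).im = 0 := by
  simp only [Complex.mul_im, Complex.conj_re, Complex.conj_im]
  ring

theorem im_real_mul (r : ℝ) (a b : ℂ) : (conj a * ((r : ℂ) * b)).im = r * (conj a * b).im := by
  simp only [Complex.mul_im, Complex.mul_re, Complex.conj_re, Complex.conj_im, Complex.ofReal_re,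
    Complex.ofReal_im]
  ring

theorem coord_deriv (A : XT d L →L[ℂ] XT d L) (φ : XT d L) (t : ℝ) (x : T d L) :
    HasDerivAt (fun s : ℝ => (ev A s φ) x) (-Complex.I * (A (ev A t φ)) x) t := by
  have h1 := ev_deriv A t φ
  have h2 := (((EuclideanSpace.proj x : XT d L →L[ℂ] ℂ)).restrictScalars ℝ).hasFDerivAt.comp_hasDerivAt
    t h1
  exact h2

theorem sq_deriv (A : XT d L →L[ℂ] XT d L) (φ : XT d L) (t : ℝ) (x : T d L) :
    HasDerivAt (fun s : ℝ => ‖(ev A s φ) x‖ ^ 2)
      (2 * (conj ((ev A t φ) x) * (A (ev A t φ)) x).im) t := by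
  have h1 := (coord_deriv A φ t x).norm_sq
  convert h1 using 1
  rw [Complex.inner]
  simp only [Complex.mul_im, Complex.mul_re, Complex.conj_re, Complex.conj_im, Complex.neg_re,
    Complex.neg_im, Complex.I_re, Complex.I_im]
  ring

theorem wm_deriv (lam : ℝ) (V F : T d L → ℝ) (φ : XT d L) (t : ℝ) :
    HasDerivAt (fun s => wm F (ev (HC lam V) s φ))
      (2 * ∑ i : Fin d, ∑ x, (F (x + Pi.single i 1) - F x) * J (ev (HC lam V) t φ) i x) t := by
  have h1 : HasDerivAt (fun s => wm F (ev (HC lam V) s φ))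
      (∑ x, F x * (2 * (conj ((ev (HC lam V) t φ) x) * (HC lam V (ev (HC lam V) t φ)) x).im)) t := by
    unfold wm
    exact HasDerivAt.fun_sum fun x _ => (sq_deriv (HC lam V) φ t x).const_mul (F x)
  convert h1 using 1
  set f := ev (HC lam V) t φ with hf
  have h2 : ∀ x : T d L, (conj (f x) * (HC lam V f) x).im =
      ∑ i : Fin d, (-(conj (f x) * f (x + Pi.single i 1)).im +
        -(conj (f x) * f (x - Pi.single i 1)).im) := by
    intro x
    rw [HC_apply, mul_add, Complex.add_im, im_real_mul, conj_im_self, mul_zero, add_zero]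
    unfold Bf
    rw [Finset.mul_sum, Complex.im_sum]
    refine Finset.sum_congr rfl fun i _ => ?_
    have e : conj (f x) * (2 * f x - f (x + Pi.single i 1) - f (x - Pi.single i 1)) =
        2 * (conj (f x) * f x) - conj (f x) * f (x + Pi.single i 1) -
          conj (f x) * f (x - Pi.single i 1) := by ring
    have e2 : (2 * (conj (f x) * f x)).im = 0 := by
      have := conj_im_self (f x)
      simp only [Complex.mul_im, Complex.re_ofNat, Complex.im_ofNat] at this ⊢
      linarith
    rw [e, Complex.sub_im, Complex.sub_im, e2]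
    ring
  simp only [h2]
  have h3 : ∑ x : T d L, F x * (2 * ∑ i : Fin d, (-(conj (f x) * f (x + Pi.single i 1)).im +
        -(conj (f x) * f (x - Pi.single i 1)).im)) =
      2 * ∑ x : T d L, ∑ i : Fin d, ((fun x y : T d L => F x * (-(conj (f x) * f y).im))
        x (x + Pi.single i 1) + (fun x y : T d L => F x * (-(conj (f x) * f y).im))
        x (x - Pi.single i 1)) := by
    rw [Finset.mul_sum]
    refine Finset.sum_congr rfl fun x _ => ?_
    rw [Finset.mul_sum, Finset.mul_sum, Finset.mul_sum]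
    refine Finset.sum_congr rfl fun i _ => ?_
    ring
  rw [h3, sum_nbr (fun x y : T d L => F x * (-(conj (f x) * f y).im))]
  congr 1
  refine Finset.sum_congr rfl fun i _ => Finset.sum_congr rfl fun x _ => ?_
  unfold J
  rw [conj_im_swap (f (x + Pi.single i 1)) (f x)]
  ring

/-- the shift -/
noncomputable def Sh (i : Fin d) : XT d L →L[ℂ] XT d L :=
  LinearMap.toContinuousLinearMap
    { toFun := fun f => WithLp.toLp 2 fun x => f (x + Pi.single i 1)
      map_add' := fun f g => by
        ext x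
        simp only [PiLp.add_apply]
      map_smul' := fun a f => by
        ext x
        simp only [PiLp.smul_apply, RingHom.id_apply] }

theorem Sh_apply (i : Fin d) (f : XT d L) (x : T d L) : (Sh i f) x = f (x + Pi.single i 1) := rfl

theorem sum_shift {M : Type*} [AddCommMonoid M] (i : Fin d) (F : T d L → M) :
    ∑ x : T d L, F (x + Pi.single i 1) = ∑ x : T d L, F x :=
  Equiv.sum_comp (Equiv.addRight (Pi.single i (1 : ZMod L) : T d L)) F

theorem Sh_inner (i : Fin d) (f g : XT d L) : inner ℂ (Sh i f) (Sh i g) = inner ℂ f g := by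
  rw [inner_eq, inner_eq]
  exact sum_shift i fun x => conj (f x) * g x

theorem Sh_norm (i : Fin d) (f : XT d L) : ‖Sh i f‖ = ‖f‖ := by
  have h : ‖Sh i f‖ ^ 2 = ‖f‖ ^ 2 := by
    rw [EuclideanSpace.norm_sq_eq, EuclideanSpace.norm_sq_eq]
    exact sum_shift i fun x => ‖f x‖ ^ 2
  exact (pow_left_inj₀ (norm_nonneg _) (norm_nonneg _) two_ne_zero).1 h

theorem dir_Sh (f : XT d L) : Dir (fun y => f y) = ∑ i : Fin d, ‖Sh i f - f‖ ^ 2 := by
  unfold Dir
  refine Finset.sum_congr rfl fun i _ => ?_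
  rw [EuclideanSpace.norm_sq_eq]
  refine Finset.sum_congr rfl fun x _ => ?_
  rw [PiLp.sub_apply, Sh_apply, norm_sub_rev]

theorem sh_le_dir (f : XT d L) (i : Fin d) : ‖Sh i f - f‖ ≤ √(Dir (fun y => f y)) := by
  apply Real.le_sqrt_of_sq_le
  rw [dir_Sh]
  exact Finset.single_le_sum (f := fun i : Fin d => ‖Sh i f - f‖ ^ 2) (fun _ _ => by positivity)
    (Finset.mem_univ i)

/-- the total current -/
noncomputable def cur (φ : XT d L) (i : Fin d) : ℝ := ∑ x, J φ i x

theorem cur_eq (φ : XT d L) (i : Fin d) : cur φ i = (inner ℂ φ (Sh i φ)).im := by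
  rw [inner_eq, Complex.im_sum]
  rfl

theorem cur_eq' (φ : XT d L) (i : Fin d) : cur φ i = (inner ℂ φ (Sh i φ - φ)).im := by
  rw [cur_eq, inner_sub_right, Complex.sub_im]
  have : (inner ℂ φ φ : ℂ).im = 0 := by
    rw [inner_self_eq_norm_sq_to_K]
    norm_cast
  rw [this, sub_zero]

/-- comparison of the currents of two waves -/
theorem cur_diff (g w : XT d L) (i : Fin d) :
    |cur g i - cur w i| ≤ ‖g - w‖ * (‖Sh i g - g‖ + ‖Sh i w - w‖) := by
  have e : inner ℂ g (Sh i g - g) - inner ℂ w (Sh i w - w) =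
      inner ℂ (g - w) (Sh i g - g) - inner ℂ (Sh i w - w) (Sh i (g - w)) := by
    have h1 : inner ℂ (Sh i w) (Sh i (g - w)) = inner ℂ w (g - w) := Sh_inner i w (g - w)
    rw [inner_sub_left (Sh i w) w, h1]
    simp only [map_sub, inner_sub_left, inner_sub_right]
    ring
  rw [cur_eq', cur_eq', ← Complex.sub_im, e]
  refine (Complex.abs_im_le_norm _).trans ((norm_sub_le _ _).trans ?_)
  have a1 := norm_inner_le_norm (𝕜 := ℂ) (g - w) (Sh i g - g)
  have a2 := norm_inner_le_norm (𝕜 := ℂ) (Sh i w - w) (Sh i (g - w))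
  rw [Sh_norm] at a2
  linarith

/-- the current of a wave with a definite momentum -/
theorem cur_wave (w : XT d L) (i : Fin d) (q : ℝ) :
    |cur w i - Real.sin q * ‖w‖ ^ 2| ≤ ‖w‖ * ‖Sh i w - Complex.exp (q * Complex.I) • w‖ := by
  have e : inner ℂ w (Sh i w) = inner ℂ w (Sh i w - Complex.exp (q * Complex.I) • w) +
      Complex.exp (q * Complex.I) * ((‖w‖ ^ 2 : ℝ) : ℂ) := by
    have h0 : inner ℂ w w = ((‖w‖ ^ 2 : ℝ) : ℂ) := by
      rw [inner_self_eq_norm_sq_to_K]
      norm_cast
    rw [inner_sub_right, inner_smul_right, h0]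
    ring
  have e2 : (Complex.exp (q * Complex.I) * ((‖w‖ ^ 2 : ℝ) : ℂ)).im = Real.sin q * ‖w‖ ^ 2 := by
    rw [Complex.im_mul_ofReal, Complex.exp_ofReal_mul_I_im]
  rw [cur_eq, e, Complex.add_im, e2, add_sub_cancel_right]
  exact (Complex.abs_im_le_norm _).trans (norm_inner_le_norm _ _)

end Pool.Agent.V8H95.BW
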