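import Pool.Agent.V8H95.BW.Mom

/-!
The position of a dressed wave: the deterministic estimate.
-/

set_option autoImplicit false
set_option linter.unusedSectionVars false

open Complex MeasureTheory
open scoped BigOperators ComplexConjugate

namespace Pool.Agent.V8H95.BW

open Pool.Agent.H4R2.AE Pool.Agent.V8H99.AD Pool.Agent.V8H95.MF

variable {d L : ℕ} [NeZero L] {lam c0 η m : ℝ} {V ψ : T d L → ℝ}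

theorem young (a b ϑ : ℝ) (hϑ : 0 < ϑ) : (a + b) ^ 2 ≤ (1 + 1 / ϑ) * a ^ 2 + (1 + ϑ) * b ^ 2 := by
  have e : (1 + 1 / ϑ) * a ^ 2 + (1 + ϑ) * b ^ 2 - (a + b) ^ 2 = (a - ϑ * b) ^ 2 / ϑ := by
    field_simp
    ring
  have : 0 ≤ (a - ϑ * b) ^ 2 / ϑ := by positivity
  linarith

theorem young2 (a b ϑ : ℝ) (hϑ : 0 < ϑ) : 2 * (a * b) ≤ 1 / ϑ * a ^ 2 + ϑ * b ^ 2 := by
  have := young a b ϑ hϑ
  have e : (a + b) ^ 2 = a ^ 2 + 2 * (a * b) + b ^ 2 := by ring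
  linarith

/-- the bounds for the kinetic energy -/
theorem KK_bounds (h : Gd lam c0 η m V ψ) (u : XT d L) (ϑ κ S : ℝ) (hϑ : 0 < ϑ)
    (hϑ1 : ϑ ≤ 1 / 100) (hη : η ≤ ϑ) (hκ : 0 < κ) (hS0 : 0 ≤ S) (hS : S ≤ κ ^ 2)
    (hDir : Dir (fun y => u y) + 3 * m * ‖u‖ ^ 2 ≤ (S + 7 * ϑ * κ ^ 2) * ‖u‖ ^ 2) :
    √(KK η m u) ≤ 3 / 2 * (κ * ‖u‖) ∧
      4 * ((1 + ϑ) * ((1 + η) * KK η m u)) ≤ (4 * S + 52 * ϑ * κ ^ 2) * ‖u‖ ^ 2 := by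
  have hη0 := h.h0
  have hκ2 : 0 < κ ^ 2 := by positivity
  have h1 : KK η m u ≤ (1 + ϑ) ^ 2 * ((S + 7 * ϑ * κ ^ 2) * ‖u‖ ^ 2) := by
    unfold KK
    have h0 : 0 ≤ Dir (fun y => u y) + 3 * m * ‖u‖ ^ 2 := by
      have := Dir_nonneg (fun y => u y)
      have := mpos h
      positivity
    gcongr
  have hK0 := KK_nonneg h u
  constructor
  · rw [show 3 / 2 * (κ * ‖u‖) = √((3 / 2 * (κ * ‖u‖)) ^ 2) from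
      (Real.sqrt_sq (by positivity)).symm]
    apply Real.sqrt_le_sqrt
    refine h1.trans ?_
    have a1 : (1 + ϑ) ^ 2 ≤ 3 / 2 := by nlinarith
    have a2 : S + 7 * ϑ * κ ^ 2 ≤ 3 / 2 * κ ^ 2 := by nlinarith
    calc (1 + ϑ) ^ 2 * ((S + 7 * ϑ * κ ^ 2) * ‖u‖ ^ 2) ≤ 3 / 2 * ((3 / 2 * κ ^ 2) * ‖u‖ ^ 2) := by
          gcongr
      _ = _ := by ring
  · have a1 : (1 + ϑ) * ((1 + ϑ) * (1 + ϑ) ^ 2) ≤ 1 + 5 * ϑ := by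
      have : ϑ ^ 2 ≤ ϑ / 100 := by nlinarith
      have : ϑ ^ 3 ≤ ϑ / 100 := by nlinarith
      have : ϑ ^ 4 ≤ ϑ / 100 := by nlinarith
      nlinarith
    have a2 : (1 + 5 * ϑ) * (S + 7 * ϑ * κ ^ 2) ≤ S + 13 * ϑ * κ ^ 2 := by
      have b1 : ϑ * S ≤ ϑ * κ ^ 2 := by gcongr
      have b2 : ϑ * (ϑ * κ ^ 2) ≤ 1 / 100 * (ϑ * κ ^ 2) := by gcongr
      nlinarith
    calc 4 * ((1 + ϑ) * ((1 + η) * KK η m u))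
        ≤ 4 * ((1 + ϑ) * ((1 + ϑ) * ((1 + ϑ) ^ 2 * ((S + 7 * ϑ * κ ^ 2) * ‖u‖ ^ 2)))) := by gcongr
      _ = 4 * ((1 + ϑ) * ((1 + ϑ) * (1 + ϑ) ^ 2) * (S + 7 * ϑ * κ ^ 2) * ‖u‖ ^ 2) := by ring
      _ ≤ 4 * ((1 + 5 * ϑ) * (S + 7 * ϑ * κ ^ 2) * ‖u‖ ^ 2) := by gcongr
      _ ≤ 4 * ((S + 13 * ϑ * κ ^ 2) * ‖u‖ ^ 2) := by gcongr
      _ = _ := by ring

/-- the second moment at time `t` -/
theorem second_bound (h : Gd lam c0 η m V ψ) (hd : 1 ≤ d) (u : XT d L) (hu : u ≠ 0)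
    (ϑ κ S : ℝ) (hϑ : 0 < ϑ) (hϑ1 : ϑ ≤ 1 / 100) (hη : η ≤ ϑ) (hκ : 0 < κ) (hS0 : 0 ≤ S)
    (hS : S ≤ κ ^ 2)
    (hDir : Dir (fun y => u y) + 3 * m * ‖u‖ ^ 2 ≤ (S + 7 * ϑ * κ ^ 2) * ‖u‖ ^ 2)
    (t : ℝ) (ht : 0 ≤ t) (e : ℝ) (he : 0 ≤ e)
    (hout : ∀ s ∈ Set.Icc 0 t, outm (ev (HC lam V) s (Mu ψ u)) ≤ e ^ 2)
    (htail : 6 * d * (L : ℝ) ^ 2 * e ≤ ϑ * κ * ‖u‖) :
    wm Q (ev (HC lam V) t (Mu ψ u)) ≤
      (1 + 1 / ϑ) * (wm Q (Mu ψ u) + d * ‖Mu ψ u‖ ^ 2 / (4 * ϑ)) +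
        (4 * S + 63 * ϑ * κ ^ 2) * ‖u‖ ^ 2 * t ^ 2 := by
  have hη0 := h.h0
  have hK0 := KK_nonneg h u
  have hKb := (KK_bounds h u ϑ κ S hϑ hϑ1 hη hκ hS0 hS hDir).2
  have h1 := second_moment h hd u hu ϑ hϑ (by linarith) t ht e he hout
  set f0 := wm Q (Mu ψ u) + d * ‖Mu ψ u‖ ^ 2 / (4 * ϑ) with hf0
  have hQ0 := wm_nonneg Q Q_nonneg (Mu ψ u)
  have hQt := wm_nonneg Q Q_nonneg (ev (HC lam V) t (Mu ψ u))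
  have hf00 : 0 ≤ f0 := by positivity
  set a0 := 2 * (√(1 + ϑ) * √((1 + η) * KK η m u)) with ha0
  set a1 := 6 * d * (L : ℝ) ^ 2 * e with ha1
  have ha00 : 0 ≤ a0 := by positivity
  have ha10 : 0 ≤ a1 := by positivity
  have ha02 : a0 ^ 2 ≤ (4 * S + 52 * ϑ * κ ^ 2) * ‖u‖ ^ 2 := by
    have : a0 ^ 2 = 4 * ((1 + ϑ) * ((1 + η) * KK η m u)) := by
      rw [ha0, mul_pow, mul_pow, Real.sq_sqrt (by positivity), Real.sq_sqrt (by positivity)]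
      ring
    rw [this]
    exact hKb
  have ha2 : (a0 + a1) ^ 2 ≤ (4 * S + 58 * ϑ * κ ^ 2) * ‖u‖ ^ 2 := by
    have b1 := young a1 a0 ϑ hϑ
    have b2 : a1 ^ 2 ≤ (ϑ * κ * ‖u‖) ^ 2 := pow_le_pow_left₀ ha10 htail 2
    have b3 : (1 + 1 / ϑ) * a1 ^ 2 ≤ (ϑ ^ 2 + ϑ) * κ ^ 2 * ‖u‖ ^ 2 := by
      calc (1 + 1 / ϑ) * a1 ^ 2 ≤ (1 + 1 / ϑ) * (ϑ * κ * ‖u‖) ^ 2 := by gcongr
        _ = _ := by field_simp
    have b4 : (1 + ϑ) * a0 ^ 2 ≤ (1 + ϑ) * ((4 * S + 52 * ϑ * κ ^ 2) * ‖u‖ ^ 2) := by gcongr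
    have b5 : (1 + ϑ) * (4 * S + 52 * ϑ * κ ^ 2) + (ϑ ^ 2 + ϑ) * κ ^ 2 ≤
        4 * S + 58 * ϑ * κ ^ 2 := by
      have c1 : ϑ * S ≤ ϑ * κ ^ 2 := by gcongr
      have c2 : ϑ * (ϑ * κ ^ 2) ≤ 1 / 100 * (ϑ * κ ^ 2) := by gcongr
      nlinarith
    have e1 : (a0 + a1) ^ 2 = (a1 + a0) ^ 2 := by ring
    rw [e1]
    calc (a1 + a0) ^ 2 ≤ (ϑ ^ 2 + ϑ) * κ ^ 2 * ‖u‖ ^ 2 +
          (1 + ϑ) * ((4 * S + 52 * ϑ * κ ^ 2) * ‖u‖ ^ 2) := by linarith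
      _ = ((1 + ϑ) * (4 * S + 52 * ϑ * κ ^ 2) + (ϑ ^ 2 + ϑ) * κ ^ 2) * ‖u‖ ^ 2 := by ring
      _ ≤ _ := by gcongr
  have hB : 0 ≤ d * ‖Mu ψ u‖ ^ 2 / (4 * ϑ) := by positivity
  have h2 : wm Q (ev (HC lam V) t (Mu ψ u)) + d * ‖Mu ψ u‖ ^ 2 / (4 * ϑ) ≤
      (√f0 + (a0 + a1) * t) ^ 2 := by
    rw [← Real.sqrt_le_left (by positivity)]
    exact h1
  have h3 := young (√f0) ((a0 + a1) * t) ϑ hϑ
  rw [Real.sq_sqrt hf00] at h3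
  have h4 : (1 + ϑ) * ((a0 + a1) * t) ^ 2 ≤ (4 * S + 63 * ϑ * κ ^ 2) * ‖u‖ ^ 2 * t ^ 2 := by
    have c0 : (1 + ϑ) * (4 * S + 58 * ϑ * κ ^ 2) ≤ 4 * S + 63 * ϑ * κ ^ 2 := by
      have c1 : ϑ * S ≤ ϑ * κ ^ 2 := by gcongr
      have c2 : ϑ * (ϑ * κ ^ 2) ≤ 1 / 100 * (ϑ * κ ^ 2) := by gcongr
      nlinarith
    calc (1 + ϑ) * ((a0 + a1) * t) ^ 2 = (1 + ϑ) * (a0 + a1) ^ 2 * t ^ 2 := by ring
      _ ≤ (1 + ϑ) * ((4 * S + 58 * ϑ * κ ^ 2) * ‖u‖ ^ 2) * t ^ 2 := by gcongr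
      _ = ((1 + ϑ) * (4 * S + 58 * ϑ * κ ^ 2)) * ‖u‖ ^ 2 * t ^ 2 := by ring
      _ ≤ _ := by gcongr
  linarith

/-- **the deterministic estimate** -/
theorem det_bound (h : Gd lam c0 η m V ψ) (hd : 1 ≤ d) (u : XT d L) (hu : u ≠ 0)
    (w : ℝ → XT d L) (q : Fin d → ℝ) (ϑ κ ρ : ℝ) (hϑ : 0 < ϑ) (hϑ1 : ϑ ≤ 1 / 100) (hη : η ≤ ϑ)
    (hκ : 0 < κ) (hS : ∑ j, Real.sin (q j) ^ 2 ≤ κ ^ 2)
    (hDir : Dir (fun y => u y) + 3 * m * ‖u‖ ^ 2 ≤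
      (∑ j, Real.sin (q j) ^ 2 + 7 * ϑ * κ ^ 2) * ‖u‖ ^ 2)
    (t : ℝ) (ht : 0 ≤ t) (e : ℝ) (he : 0 ≤ e)
    (hout : ∀ s ∈ Set.Icc 0 t, outm (ev (HC lam V) s (Mu ψ u)) ≤ e ^ 2)
    (htail : 6 * d * (L : ℝ) ^ 2 * e ≤ ϑ * κ * ‖u‖) (hwc : Continuous w)
    (hw : ∀ s, ‖w s‖ ≤ ‖u‖) (hw2 : ∀ s j, ‖Sh j (w s) - w s‖ ≤ √(KK η m u))
    (hw3 : ∀ s j, ‖Sh j (w s) - Complex.exp (q j * Complex.I) • w s‖ ≤ ϑ * κ * ‖u‖)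
    (hρ : wm Q u ≤ ρ ^ 2 * ‖u‖ ^ 2) :
    Am (fun j => t * (2 * Real.sin (q j))) (ev (HC lam V) t (Mu ψ u)) ≤
      (1 + 2 / ϑ) * (2 * ρ ^ 2 + d / (2 * ϑ)) * ‖u‖ ^ 2 +
        (83 + 160 * d) * ϑ * κ ^ 2 * t ^ 2 * ‖u‖ ^ 2 +
        40 * d * κ ^ 2 * t * ‖u‖ * ∫ s in (0 : ℝ)..t, ‖ev (HC lam V) s u - w s‖ := by
  set U := ‖u‖ with hU
  have hU0 : 0 ≤ U := norm_nonneg _
  set S := ∑ j, Real.sin (q j) ^ 2 with hSd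
  have hS0 : 0 ≤ S := Finset.sum_nonneg fun _ _ => by positivity
  set I := ∫ s in (0 : ℝ)..t, ‖ev (HC lam V) s u - w s‖ with hI
  have hI0 : 0 ≤ I := intervalIntegral.integral_nonneg ht fun s _ => norm_nonneg _
  have hη0 := h.h0
  have hL := L_one' (L := L)
  have hd1 : (1 : ℝ) ≤ d := by exact_mod_cast hd
  set φ0 := Mu ψ u with hφ0
  set φ := ev (HC lam V) t φ0 with hφ
  have hKb := (KK_bounds h u ϑ κ S hϑ hϑ1 hη hκ hS0 hS hDir).1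
  have hφn : ‖φ‖ = ‖φ0‖ := evn lam V t φ0
  have hφU : ‖φ0‖ ≤ (1 + ϑ) * U := (mu_norm h u).trans (by gcongr)
  have hφU2 : ‖φ0‖ ^ 2 ≤ (1 + 3 * ϑ) * U ^ 2 := by
    have h1 := pow_le_pow_left₀ (norm_nonneg _) hφU 2
    calc _ ≤ ((1 + ϑ) * U) ^ 2 := h1
      _ = (1 + ϑ) ^ 2 * U ^ 2 := by ring
      _ ≤ _ := by gcongr; nlinarith
  have hφU3 : ‖φ0‖ ^ 2 ≤ 2 * U ^ 2 := hφU2.trans (by gcongr; linarith)
  have hsin : ∀ j, |Real.sin (q j)| ≤ κ := by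
    intro j
    apply abs_le_of_sq_le_sq _ hκ.le
    refine le_trans ?_ hS
    exact Finset.single_le_sum (f := fun j => Real.sin (q j) ^ 2) (fun _ _ => by positivity)
      (Finset.mem_univ j)
  -- the mean positions
  set Δ := t * (40 * ϑ * κ * U ^ 2) + 10 * κ * U * I with hΔ
  have hfirst : ∀ j, |wm (X j) φ - wm (X j) φ0 - t * (2 * Real.sin (q j) * U ^ 2)| ≤ Δ := by
    intro j
    have h1 := first_moment h u w (q j) (ϑ * κ * U) j t ht e he hout hwc hw (fun s => hw2 s j)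
      (fun s => hw3 s j)
    refine h1.trans ?_
    rw [hΔ]
    have b1 : 24 * η * ‖u‖ * √(KK η m u) ≤ 36 * ϑ * κ * U ^ 2 := by
      calc 24 * η * ‖u‖ * √(KK η m u) ≤ 24 * ϑ * U * (3 / 2 * (κ * U)) := by gcongr
        _ = _ := by ring
    have b2 : 4 * d * (L : ℝ) * e * ‖φ0‖ ≤ 2 * ϑ * κ * U ^ 2 := by
      have c1 : 6 * d * (L : ℝ) * e ≤ ϑ * κ * U := by
        refine le_trans ?_ htail
        have : (L : ℝ) ≤ (L : ℝ) ^ 2 := by nlinarith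
        gcongr
      have c2 : ‖φ0‖ ≤ 2 * U := hφU.trans (by gcongr; linarith)
      calc 4 * d * (L : ℝ) * e * ‖φ0‖ ≤ 4 * d * (L : ℝ) * e * (2 * U) := by gcongr
        _ = 4 / 3 * (6 * d * (L : ℝ) * e) * U := by ring
        _ ≤ 4 / 3 * (ϑ * κ * U) * U := by gcongr
        _ ≤ 2 * (ϑ * κ * U) * U := by gcongr; norm_num
        _ = _ := by ring
    have b3 : 4 * √(KK η m u) + 4 * |Real.sin (q j)| * ‖u‖ ≤ 10 * κ * U := by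
      have c1 := hsin j
      calc 4 * √(KK η m u) + 4 * |Real.sin (q j)| * ‖u‖ ≤
          4 * (3 / 2 * (κ * U)) + 4 * κ * U := by gcongr
        _ = _ := by ring
    have b4 : 24 * η * ‖u‖ * √(KK η m u) + 2 * ‖u‖ * (ϑ * κ * U) + 4 * d * L * e * ‖φ0‖ ≤
        40 * ϑ * κ * U ^ 2 := by
      have : 2 * ‖u‖ * (ϑ * κ * U) = 2 * ϑ * κ * U ^ 2 := by rw [← hU]; ring
      rw [this]
      linarith
    gcongr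
  -- the second moment
  have hsec := second_bound h hd u hu ϑ κ S hϑ hϑ1 hη hκ hS0 hS hDir t ht e he hout htail
  set f0 := wm Q (Mu ψ u) + d * ‖Mu ψ u‖ ^ 2 / (4 * ϑ) with hf0
  have hQ0 := wm_nonneg Q Q_nonneg (Mu ψ u)
  have hf0le : f0 ≤ (2 * ρ ^ 2 + d / (2 * ϑ)) * U ^ 2 := by
    have c1 : wm Q (Mu ψ u) ≤ 2 * (ρ ^ 2 * U ^ 2) := by
      refine (wm_mu h u).trans ?_
      have : (1 + η) ^ 2 ≤ 2 := by nlinarith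
      have hQu := wm_nonneg Q Q_nonneg u
      gcongr
    have c2 : d * ‖Mu ψ u‖ ^ 2 / (4 * ϑ) ≤ d * (2 * U ^ 2) / (4 * ϑ) := by gcongr
    have c3 : d * (2 * U ^ 2) / (4 * ϑ) = d / (2 * ϑ) * U ^ 2 := by field_simp; ring
    rw [hf0]
    linarith
  have hG0 : wm Q φ0 ≤ f0 := by
    have : 0 ≤ d * ‖Mu ψ u‖ ^ 2 / (4 * ϑ) := by positivity
    linarith
  rw [Am_eq]
  set a : Fin d → ℝ := fun j => t * (2 * Real.sin (q j)) with ha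
  have ha2 : ∑ j, a j ^ 2 = 4 * t ^ 2 * S := by
    rw [hSd, Finset.mul_sum]
    exact Finset.sum_congr rfl fun j _ => by rw [ha]; ring
  have haabs : ∀ j, |a j| ≤ 2 * t * κ := by
    intro j
    have : |a j| = 2 * t * |Real.sin (q j)| := by
      rw [ha]
      simp only
      rw [abs_mul, abs_mul, abs_of_nonneg ht, abs_two]
      ring
    rw [this]
    have := hsin j
    gcongr
  have hΔ0 : 0 ≤ Δ := by positivity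
  have hmean : ∑ j, a j * wm (X j) φ ≥ ∑ j, a j * wm (X j) φ0 + 4 * t ^ 2 * S * U ^ 2 -
      d * (2 * t * κ * Δ) := by
    have h1 : ∀ j, a j * wm (X j) φ ≥ a j * wm (X j) φ0 +
        a j * (t * (2 * Real.sin (q j) * U ^ 2)) - 2 * t * κ * Δ := by
      intro j
      have c1 : |a j * (wm (X j) φ - wm (X j) φ0 - t * (2 * Real.sin (q j) * U ^ 2))| ≤
          2 * t * κ * Δ := by
        rw [abs_mul]
        exact mul_le_mul (haabs j) (hfirst j) (abs_nonneg _) (by positivity)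
      have c2 := (abs_le.1 c1).1
      have c3 : a j * (wm (X j) φ - wm (X j) φ0 - t * (2 * Real.sin (q j) * U ^ 2)) =
          a j * wm (X j) φ - a j * wm (X j) φ0 - a j * (t * (2 * Real.sin (q j) * U ^ 2)) := by ring
      linarith
    have h2 : ∑ j, (a j * wm (X j) φ0 + a j * (t * (2 * Real.sin (q j) * U ^ 2)) -
        2 * t * κ * Δ) ≤ ∑ j, a j * wm (X j) φ := Finset.sum_le_sum fun j _ => h1 j
    have h3 : ∑ j, (a j * wm (X j) φ0 + a j * (t * (2 * Real.sin (q j) * U ^ 2)) -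
        2 * t * κ * Δ) = ∑ j, a j * wm (X j) φ0 + 4 * t ^ 2 * S * U ^ 2 -
          d * (2 * t * κ * Δ) := by
      rw [Finset.sum_sub_distrib, Finset.sum_add_distrib]
      have c1 : ∑ j, a j * (t * (2 * Real.sin (q j) * U ^ 2)) = 4 * t ^ 2 * S * U ^ 2 := by
        rw [hSd, Finset.mul_sum, Finset.sum_mul]
        exact Finset.sum_congr rfl fun j _ => by rw [ha]; ring
      rw [c1]
      simp
    linarith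
  have hstart : |2 * ∑ j, a j * wm (X j) φ0| ≤ 1 / ϑ * f0 + 8 * ϑ * κ ^ 2 * t ^ 2 * U ^ 2 := by
    rw [abs_mul, abs_two]
    have c1 := first_le a φ0
    have c2 : √(∑ j, a j ^ 2) ≤ 2 * t * κ := by
      rw [ha2]
      rw [show 2 * t * κ = √((2 * t * κ) ^ 2) from (Real.sqrt_sq (by positivity)).symm]
      apply Real.sqrt_le_sqrt
      calc 4 * t ^ 2 * S ≤ 4 * t ^ 2 * κ ^ 2 := by gcongr
        _ = _ := by ring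
    have c3 := young2 (√(wm Q φ0)) (2 * t * κ * ‖φ0‖) ϑ hϑ
    rw [Real.sq_sqrt hQ0] at c3
    calc 2 * |∑ j, a j * wm (X j) φ0| ≤ 2 * (√(∑ j, a j ^ 2) * (√(wm Q φ0) * ‖φ0‖)) := by gcongr
      _ ≤ 2 * (2 * t * κ * (√(wm Q φ0) * ‖φ0‖)) := by gcongr
      _ = 2 * (√(wm Q φ0) * (2 * t * κ * ‖φ0‖)) := by ring
      _ ≤ 1 / ϑ * wm Q φ0 + ϑ * (2 * t * κ * ‖φ0‖) ^ 2 := c3
      _ = 1 / ϑ * wm Q φ0 + 4 * ϑ * κ ^ 2 * t ^ 2 * ‖φ0‖ ^ 2 := by ring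
      _ ≤ 1 / ϑ * f0 + 4 * ϑ * κ ^ 2 * t ^ 2 * (2 * U ^ 2) := by gcongr
      _ = _ := by ring
  have hlast : (∑ j, a j ^ 2) * ‖φ‖ ^ 2 ≤ 4 * t ^ 2 * S * U ^ 2 + 12 * ϑ * κ ^ 2 * t ^ 2 * U ^ 2 := by
    rw [ha2, hφn]
    calc 4 * t ^ 2 * S * ‖φ0‖ ^ 2 ≤ 4 * t ^ 2 * S * ((1 + 3 * ϑ) * U ^ 2) := by gcongr
      _ = 4 * t ^ 2 * S * U ^ 2 + 12 * ϑ * S * t ^ 2 * U ^ 2 := by ring
      _ ≤ _ := by gcongr
  have hΔe : 2 * (d * (2 * t * κ * Δ)) = 160 * d * ϑ * κ ^ 2 * t ^ 2 * U ^ 2 +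
      40 * d * κ ^ 2 * t * U * I := by
    rw [hΔ]
    ring
  have hs1 := (abs_le.1 hstart).1
  have hf1 : (1 + 2 / ϑ) * f0 ≤ (1 + 2 / ϑ) * (2 * ρ ^ 2 + d / (2 * ϑ)) * U ^ 2 := by
    calc (1 + 2 / ϑ) * f0 ≤ (1 + 2 / ϑ) * ((2 * ρ ^ 2 + d / (2 * ϑ)) * U ^ 2) := by gcongr
      _ = _ := by ring
  have hf2 : (1 + 2 / ϑ) * f0 = (1 + 1 / ϑ) * f0 + 1 / ϑ * f0 := by ring
  have hexp : (4 * S + 63 * ϑ * κ ^ 2) * U ^ 2 * t ^ 2 = 4 * t ^ 2 * S * U ^ 2 +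
      63 * ϑ * κ ^ 2 * t ^ 2 * U ^ 2 := by ring
  have hexp2 : (83 + 160 * d) * ϑ * κ ^ 2 * t ^ 2 * U ^ 2 = 83 * ϑ * κ ^ 2 * t ^ 2 * U ^ 2 +
      160 * d * ϑ * κ ^ 2 * t ^ 2 * U ^ 2 := by ring
  linarith

end Pool.Agent.V8H95.BW
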