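import Pool.Agent.V8H95.BW.Cur

/-!
Currents of dressed waves.
-/

set_option autoImplicit false
set_option linter.unusedSectionVars false

open Complex MeasureTheory
open scoped BigOperators ComplexConjugate

namespace Pool.Agent.V8H95.BW

open Pool.Agent.H4R2.AE Pool.Agent.V8H99.AD Pool.Agent.V8H95.MF

variable {d L : ℕ} [NeZero L] {lam c0 η m : ℝ} {V ψ : T d L → ℝ}

/-- removing the dressing -/
noncomputable def und (ψ : T d L → ℝ) (φ : XT d L) : XT d L := Mu (fun x => (ψ x)⁻¹) φ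

theorem mu_und (h : Gd lam c0 η m V ψ) (φ : XT d L) : Mu ψ (und ψ φ) = φ := mu_inv h φ

theorem und_norm (h : Gd lam c0 η m V ψ) (φ : XT d L) : ‖und ψ φ‖ ≤ ‖φ‖ := by
  have := Mu_norm_le (fun x => (ψ x)⁻¹) 1 zero_le_one (fun x => by
    have hp : 0 < ψ x := lt_of_lt_of_le one_pos (h.lo x)
    rw [abs_of_pos (inv_pos.2 hp)]
    exact inv_le_one_of_one_le₀ (h.lo x)) φ
  rw [one_mul] at this
  exact this

theorem mu_norm (h : Gd lam c0 η m V ψ) (u : XT d L) : ‖Mu ψ u‖ ≤ (1 + η) * ‖u‖ :=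
  Mu_norm_le ψ (1 + η) (by linarith [h.h0]) (fun x => by
    have hp : 0 < ψ x := lt_of_lt_of_le one_pos (h.lo x)
    rw [abs_of_pos hp]
    exact h.hi x) u

theorem J_mu (ψ : T d L → ℝ) (g : XT d L) (i : Fin d) (x : T d L) :
    J (Mu ψ g) i x = ψ x * ψ (x + Pi.single i 1) *
      (conj (g x) * (g (x + Pi.single i 1) - g x)).im := by
  unfold J
  rw [Mu_apply, Mu_apply, map_mul, Complex.conj_ofReal]
  have e : (ψ x : ℂ) * conj (g x) * ((ψ (x + Pi.single i 1) : ℂ) * g (x + Pi.single i 1)) =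
      ((ψ x * ψ (x + Pi.single i 1) : ℝ) : ℂ) * (conj (g x) * (g (x + Pi.single i 1) - g x)) +
      ((ψ x * ψ (x + Pi.single i 1) : ℝ) : ℂ) * (conj (g x) * g x) := by
    push_cast
    ring
  rw [e, Complex.add_im, Complex.im_ofReal_mul, Complex.im_ofReal_mul, conj_im_self, mul_zero,
    add_zero]

theorem cs_sum (a b : T d L → ℝ) : ∑ x, a x * b x ≤ √(∑ x, a x ^ 2) * √(∑ x, b x ^ 2) :=
  Real.sum_mul_le_sqrt_mul_sqrt _ _ _

theorem psi_sq (h : Gd lam c0 η m V ψ) (x y : T d L) : 1 ≤ ψ x * ψ y ∧ ψ x * ψ y ≤ (1 + η) ^ 2 := by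
  have a1 := h.lo x
  have a2 := h.lo y
  have a3 := h.hi x
  have a4 := h.hi y
  have a5 := h.h0
  constructor
  · nlinarith
  · calc ψ x * ψ y ≤ (1 + η) * (1 + η) := by gcongr
      _ = (1 + η) ^ 2 := by ring

theorem cur_dress (h : Gd lam c0 η m V ψ) (g : XT d L) (i : Fin d) :
    |cur (Mu ψ g) i - cur g i| ≤ 3 * η * (‖g‖ * ‖Sh i g - g‖) := by
  have e : cur (Mu ψ g) i - cur g i = ∑ x, (ψ x * ψ (x + Pi.single i 1) - 1) *
      (conj (g x) * (g (x + Pi.single i 1) - g x)).im := by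
    unfold cur
    rw [← Finset.sum_sub_distrib]
    refine Finset.sum_congr rfl fun x _ => ?_
    rw [J_mu]
    unfold J
    have e1 : (conj (g x) * g (x + Pi.single i 1)).im =
        (conj (g x) * (g (x + Pi.single i 1) - g x)).im := by
      rw [mul_sub, Complex.sub_im, conj_im_self, sub_zero]
    rw [e1]
    ring
  rw [e]
  refine (Finset.abs_sum_le_sum_abs _ _).trans ?_
  have h1 : ∀ x : T d L, |(ψ x * ψ (x + Pi.single i 1) - 1) *
      (conj (g x) * (g (x + Pi.single i 1) - g x)).im| ≤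
      3 * η * (‖g x‖ * ‖(Sh i g - g) x‖) := by
    intro x
    have a1 := psi_sq h x (x + Pi.single i 1)
    have a2 := h.h0
    have a3 := h.h1
    rw [abs_mul, abs_of_nonneg (by linarith [a1.1])]
    have a4 : ψ x * ψ (x + Pi.single i 1) - 1 ≤ 3 * η := by nlinarith [a1.2]
    have a5 : |(conj (g x) * (g (x + Pi.single i 1) - g x)).im| ≤ ‖g x‖ * ‖(Sh i g - g) x‖ := by
      refine (Complex.abs_im_le_norm _).trans ?_
      rw [norm_mul, RCLike.norm_conj]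
      exact le_rfl
    exact mul_le_mul a4 a5 (abs_nonneg _) (by positivity)
  refine (Finset.sum_le_sum fun x _ => h1 x).trans ?_
  rw [← Finset.mul_sum]
  have h2 := cs_sum (fun x => ‖g x‖) (fun x => ‖(Sh i g - g) x‖)
  rw [← EuclideanSpace.norm_sq_eq, ← EuclideanSpace.norm_sq_eq, Real.sqrt_sq (norm_nonneg _),
    Real.sqrt_sq (norm_nonneg _)] at h2
  have a2 := h.h0
  gcongr

/-- the bound for the kinetic energy -/
noncomputable def KK (η m : ℝ) (u : XT d L) : ℝ :=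
  (1 + η) ^ 2 * (Dir (fun y => u y) + 3 * m * ‖u‖ ^ 2)

theorem KK_nonneg (h : Gd lam c0 η m V ψ) (u : XT d L) : 0 ≤ KK η m u := by
  have := mpos h
  have := Dir_nonneg (fun y => u y)
  unfold KK
  positivity

theorem dir_KK (h : Gd lam c0 η m V ψ) (u : XT d L) : Dir (fun y => u y) ≤ KK η m u := by
  have h1 := mpos h
  have h2 := Dir_nonneg (fun y => u y)
  have h3 := h.h0
  unfold KK
  have h4 : 1 ≤ (1 + η) ^ 2 := one_le_pow₀ (by linarith)
  have h5 : 0 ≤ 3 * m * ‖u‖ ^ 2 := by positivity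
  nlinarith

/-- conservation of energy -/
theorem energy_le' (h : Gd lam c0 η m V ψ) (u : XT d L) (s : ℝ) :
    ∑ i : Fin d, ∑ x, ψ x * ψ (x + Pi.single i 1) *
      ‖(und ψ (ev (HC lam V) s (Mu ψ u))) x -
        (und ψ (ev (HC lam V) s (Mu ψ u))) (x + Pi.single i 1)‖ ^ 2 ≤ KK η m u := by
  set φ := ev (HC lam V) s (Mu ψ u) with hφ
  have h1 := energy' h (und ψ φ)
  rw [mu_und h] at h1
  have h2 := energy' h u
  have h3 : inner ℂ φ (HC lam V φ - ((c0 : ℝ) : ℂ) • φ) =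
      inner ℂ (Mu ψ u) (HC lam V (Mu ψ u) - ((c0 : ℝ) : ℂ) • Mu ψ u) := by
    rw [inner_sub_right, inner_sub_right, inner_smul_right, inner_smul_right, hφ,
      ev_energy (HC_sa lam V), ev_inner (HC_sa lam V)]
  rw [h3, h2] at h1
  have h4 := (gg_sum h φ).1
  have h5 := (gg_sum h (Mu ψ u)).2
  have h6 : ‖Mu ψ u‖ ^ 2 ≤ ((1 + η) * ‖u‖) ^ 2 :=
    pow_le_pow_left₀ (norm_nonneg _) (mu_norm h u) 2
  have hm := mpos h
  have h7 : ∑ i : Fin d, ∑ x, ψ x * ψ (x + Pi.single i 1) *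
      ‖u x - u (x + Pi.single i 1)‖ ^ 2 ≤ (1 + η) ^ 2 * Dir (fun y => u y) := by
    unfold Dir
    rw [Finset.mul_sum]
    refine Finset.sum_le_sum fun i _ => ?_
    rw [Finset.mul_sum]
    refine Finset.sum_le_sum fun x _ => ?_
    exact mul_le_mul_of_nonneg_right (psi_sq h _ _).2 (by positivity)
  have h8 : 3 * m * ‖Mu ψ u‖ ^ 2 ≤ 3 * m * ((1 + η) * ‖u‖) ^ 2 := by gcongr
  unfold KK
  have e : (1 + η) ^ 2 * (Dir (fun y => u y) + 3 * m * ‖u‖ ^ 2) =
      (1 + η) ^ 2 * Dir (fun y => u y) + 3 * m * ((1 + η) * ‖u‖) ^ 2 := by ring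
  rw [e]
  linarith

theorem dir_und (h : Gd lam c0 η m V ψ) (u : XT d L) (s : ℝ) :
    Dir (fun y => (und ψ (ev (HC lam V) s (Mu ψ u))) y) ≤ KK η m u := by
  refine le_trans ?_ (energy_le' h u s)
  unfold Dir
  refine Finset.sum_le_sum fun i _ => Finset.sum_le_sum fun x _ => ?_
  have := (psi_sq h x (x + Pi.single i 1)).1
  nlinarith [sq_nonneg ‖(und ψ (ev (HC lam V) s (Mu ψ u))) x -
        (und ψ (ev (HC lam V) s (Mu ψ u))) (x + Pi.single i 1)‖]

/-- the weighted current -/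
theorem wcur (h : Gd lam c0 η m V ψ) (u : XT d L) (s : ℝ) (b : Fin d → T d L → ℝ) :
    |∑ i : Fin d, ∑ x, b i x * J (ev (HC lam V) s (Mu ψ u)) i x| ≤
      √(∑ i : Fin d, ∑ x, b i x ^ 2 * ‖(ev (HC lam V) s (Mu ψ u)) x‖ ^ 2) *
        √((1 + η) * KK η m u) := by
  set φ := ev (HC lam V) s (Mu ψ u) with hφ
  have hE := energy_le' h u s
  rw [← hφ] at hE
  set g := und ψ φ with hg
  have hp : ∀ y, 0 < ψ y := fun y => lt_of_lt_of_le one_pos (h.lo y)
  have hη := h.h0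
  have h1 : ∀ (i : Fin d) (x : T d L), |b i x * J φ i x| ≤
      (|b i x| * ‖φ x‖) * (ψ (x + Pi.single i 1) * ‖g x - g (x + Pi.single i 1)‖) := by
    intro i x
    have e1 : J φ i x = ψ x * ψ (x + Pi.single i 1) *
        (conj (g x) * (g (x + Pi.single i 1) - g x)).im := by
      rw [← J_mu, hg, mu_und h]
    have e2 : ‖φ x‖ = ψ x * ‖g x‖ := by
      have : φ x = (ψ x : ℂ) * g x := by
        rw [← Mu_apply ψ g, hg, mu_und h]
      rw [this, norm_mul, Complex.norm_real, Real.norm_eq_abs, abs_of_pos (hp x)]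
    have a5 : |(conj (g x) * (g (x + Pi.single i 1) - g x)).im| ≤
        ‖g x‖ * ‖g x - g (x + Pi.single i 1)‖ := by
      refine (Complex.abs_im_le_norm _).trans ?_
      rw [norm_mul, RCLike.norm_conj, norm_sub_rev]
    rw [abs_mul, e1, e2, abs_mul, abs_mul, abs_of_pos (hp _), abs_of_pos (hp _)]
    have := hp x
    have := hp (x + Pi.single i 1)
    calc |b i x| * (ψ x * ψ (x + Pi.single i 1) *
          |(conj (g x) * (g (x + Pi.single i 1) - g x)).im|)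
        ≤ |b i x| * (ψ x * ψ (x + Pi.single i 1) *
          (‖g x‖ * ‖g x - g (x + Pi.single i 1)‖)) := by gcongr
      _ = _ := by ring
  have h2 : |∑ i : Fin d, ∑ x, b i x * J φ i x| ≤ ∑ i : Fin d, ∑ x,
      (|b i x| * ‖φ x‖) * (ψ (x + Pi.single i 1) * ‖g x - g (x + Pi.single i 1)‖) := by
    refine (Finset.abs_sum_le_sum_abs _ _).trans (Finset.sum_le_sum fun i _ => ?_)
    exact (Finset.abs_sum_le_sum_abs _ _).trans (Finset.sum_le_sum fun x _ => h1 i x)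
  refine h2.trans ?_
  have h3 := Real.sum_mul_le_sqrt_mul_sqrt (Finset.univ : Finset (Fin d × T d L))
    (fun p => |b p.1 p.2| * ‖φ p.2‖)
    (fun p => ψ (p.2 + Pi.single p.1 1) * ‖g p.2 - g (p.2 + Pi.single p.1 1)‖)
  rw [← Finset.univ_product_univ, Finset.sum_product, Finset.sum_product, Finset.sum_product] at h3
  refine h3.trans ?_
  have e1 : ∑ i : Fin d, ∑ x : T d L, (|b i x| * ‖φ x‖) ^ 2 =
      ∑ i : Fin d, ∑ x, b i x ^ 2 * ‖φ x‖ ^ 2 := by
    refine Finset.sum_congr rfl fun i _ => Finset.sum_congr rfl fun x _ => ?_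
    rw [mul_pow, sq_abs]
  have e2 : ∑ i : Fin d, ∑ x : T d L, (ψ (x + Pi.single i 1) *
      ‖g x - g (x + Pi.single i 1)‖) ^ 2 ≤ (1 + η) * KK η m u := by
    refine le_trans ?_ (mul_le_mul_of_nonneg_left hE (by linarith))
    rw [Finset.mul_sum]
    refine Finset.sum_le_sum fun i _ => ?_
    rw [Finset.mul_sum]
    refine Finset.sum_le_sum fun x _ => ?_
    rw [mul_pow]
    have a1 := h.lo x
    have a2 := h.hi (x + Pi.single i 1)
    have a3 := hp (x + Pi.single i 1)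
    have a4 : ψ (x + Pi.single i 1) ^ 2 ≤ (1 + η) * (ψ x * ψ (x + Pi.single i 1)) := by
      calc ψ (x + Pi.single i 1) ^ 2 = ψ (x + Pi.single i 1) * (1 * ψ (x + Pi.single i 1)) := by
            ring
        _ ≤ (1 + η) * (ψ x * ψ (x + Pi.single i 1)) := by gcongr
    calc _ ≤ (1 + η) * (ψ x * ψ (x + Pi.single i 1)) * ‖g x - g (x + Pi.single i 1)‖ ^ 2 := by
          gcongr
      _ = _ := by ring
  simp only at h3 ⊢
  rw [e1]
  gcongr

/-- the current of the wave -/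
theorem cur_main (h : Gd lam c0 η m V ψ) (u w : XT d L) (s q σ : ℝ) (i : Fin d) (hw : ‖w‖ ≤ ‖u‖)
    (hw2 : ‖Sh i w - w‖ ≤ √(KK η m u))
    (hw3 : ‖Sh i w - Complex.exp (q * Complex.I) • w‖ ≤ σ) :
    |cur (ev (HC lam V) s (Mu ψ u)) i - Real.sin q * ‖u‖ ^ 2| ≤
      12 * η * ‖u‖ * √(KK η m u) + 2 * √(KK η m u) * ‖ev (HC lam V) s u - w‖ + ‖u‖ * σ +
        2 * |Real.sin q| * ‖u‖ * ‖ev (HC lam V) s u - w‖ := by
  set φ := ev (HC lam V) s (Mu ψ u) with hφ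
  set g := und ψ φ with hg
  set κ := √(KK η m u) with hκ
  have hκ0 : 0 ≤ κ := Real.sqrt_nonneg _
  set D := ‖ev (HC lam V) s u - w‖ with hD
  have hD0 : 0 ≤ D := norm_nonneg _
  have hη := h.h0
  have hη1 := h.h1
  have hφn : ‖φ‖ ≤ 2 * ‖u‖ := by
    rw [hφ, evn]
    refine (mu_norm h u).trans ?_
    gcongr
    linarith
  have hgn : ‖g‖ ≤ 2 * ‖u‖ := (und_norm h φ).trans hφn
  have hgd : ‖Sh i g - g‖ ≤ κ := by
    refine (sh_le_dir g i).trans ?_
    apply Real.sqrt_le_sqrt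
    exact dir_und h u s
  have b1 : |cur φ i - cur g i| ≤ 6 * η * ‖u‖ * κ := by
    have h1 := cur_dress h g i
    rw [hg, mu_und h, ← hg] at h1
    calc _ ≤ 3 * η * (‖g‖ * ‖Sh i g - g‖) := h1
      _ ≤ 3 * η * ((2 * ‖u‖) * κ) := by gcongr
      _ = _ := by ring
  have b2 : ‖g - w‖ ≤ 3 * η * ‖u‖ + D := by
    have h1 : ‖g - φ‖ ≤ 2 * η * ‖u‖ := by
      have h2 := mu_close h g
      rw [hg, mu_und h, ← hg] at h2
      calc _ ≤ η * ‖g‖ := h2
        _ ≤ η * (2 * ‖u‖) := by gcongr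
        _ = _ := by ring
    have h2 : ‖φ - ev (HC lam V) s u‖ ≤ η * ‖u‖ := by
      rw [hφ, ← map_sub, evn, ← norm_neg, neg_sub]
      exact mu_close h u
    have e : g - w = (g - φ) + (φ - ev (HC lam V) s u) + (ev (HC lam V) s u - w) := by abel
    rw [e]
    refine (norm_add_le _ _).trans ?_
    have := norm_add_le (g - φ) (φ - ev (HC lam V) s u)
    linarith
  have b3 : |cur g i - cur w i| ≤ (3 * η * ‖u‖ + D) * (κ + κ) := by
    refine (cur_diff g w i).trans ?_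
    gcongr
  have b4 : |cur w i - Real.sin q * ‖w‖ ^ 2| ≤ ‖u‖ * σ := by
    refine (cur_wave w i q).trans ?_
    gcongr
  have b5 : |Real.sin q * ‖w‖ ^ 2 - Real.sin q * ‖u‖ ^ 2| ≤ 2 * |Real.sin q| * ‖u‖ * D := by
    rw [← mul_sub, abs_mul]
    have h1 : ‖u‖ - ‖w‖ ≤ D := by
      have h2 := norm_sub_norm_le (ev (HC lam V) s u) w
      rw [evn] at h2
      exact h2
    have h2 : |‖w‖ ^ 2 - ‖u‖ ^ 2| ≤ 2 * ‖u‖ * D := by
      rw [abs_sub_comm, abs_of_nonneg (by nlinarith [norm_nonneg w])]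
      have : ‖u‖ ^ 2 - ‖w‖ ^ 2 = (‖u‖ - ‖w‖) * (‖u‖ + ‖w‖) := by ring
      rw [this]
      calc (‖u‖ - ‖w‖) * (‖u‖ + ‖w‖) ≤ D * (‖u‖ + ‖u‖) := by gcongr
        _ = _ := by ring
    calc |Real.sin q| * |‖w‖ ^ 2 - ‖u‖ ^ 2| ≤ |Real.sin q| * (2 * ‖u‖ * D) := by gcongr
      _ = _ := by ring
  have e : cur φ i - Real.sin q * ‖u‖ ^ 2 = (cur φ i - cur g i) + (cur g i - cur w i) +
      (cur w i - Real.sin q * ‖w‖ ^ 2) + (Real.sin q * ‖w‖ ^ 2 - Real.sin q * ‖u‖ ^ 2) := by ring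
  rw [e]
  have c1 := abs_add_le (cur φ i - cur g i) (cur g i - cur w i)
  have c2 := abs_add_le ((cur φ i - cur g i) + (cur g i - cur w i))
    (cur w i - Real.sin q * ‖w‖ ^ 2)
  have c3 := abs_add_le ((cur φ i - cur g i) + (cur g i - cur w i) +
    (cur w i - Real.sin q * ‖w‖ ^ 2)) (Real.sin q * ‖w‖ ^ 2 - Real.sin q * ‖u‖ ^ 2)
  linarith

end Pool.Agent.V8H95.BW
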