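import Pool.Agent.V8H95.BW.Av

/-!
The mass far from the classical position, on the torus.
-/

set_option autoImplicit false
set_option linter.unusedSectionVars false

open Complex MeasureTheory
open scoped BigOperators ComplexConjugate

namespace Pool.Agent.V8H95.BW

open Pool.Agent.H4R2.AE Pool.Agent.V8H99.AD Pool.Agent.V8H95.MF

variable {d L : ℕ} [NeZero L]

/-- finite speed of propagation -/
theorem tail_ok (lam : ℝ) (h0 : 0 ≤ lam) (h1 : lam ≤ 1) (V : T d L → ℝ) (hV : ∀ x, |V x| ≤ 1)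
    (φ0 : XT d L) (R N : ℕ) (hsupp : ∀ y, φ0 y ≠ 0 → ∀ i, |rep y i| ≤ R)
    (hRN : 2 * (R + N) + 2 < L) (s : ℝ) (hs : 24 * ((4 * d + 1) * |s|) ≤ N) :
    outm (ev (HC lam V) s φ0) ≤ (Real.exp (-(N : ℝ)) * ‖φ0‖) ^ 2 := by
  classical
  obtain ⟨g, hg1, hg2⟩ := iota_exists φ0
  set ω : (Fin d → ℤ) → ℝ := fun x => V fun i => ((x i : ℤ) : ZMod L) with hω
  have hωb : ∀ x, |ω x| ≤ 1 := fun x => hV _
  have hωV : (fun y : T d L => ω (rep y)) = V := by
    funext y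
    rw [hω]
    show V (fun i => ((rep y i : ℤ) : ZMod L)) = V y
    congr 1
    funext i
    unfold rep
    exact ZMod.coe_valMinAbs _
  obtain ⟨H, hH⟩ := Pool.Agent.H4R2.AE.Exist.exists_anderson d lam ω 1 zero_le_one hωb
  have hgs : SuppIn g R := by
    intro x hx i
    by_cases hex : ∃ y : T d L, rep y = x
    · obtain ⟨y, hy⟩ := hex
      rw [← hy] at hx ⊢
      rw [hg1] at hx
      exact hsupp y hx i
    · exact absurd (hg2 x fun y hy => hex ⟨y, hy⟩) hx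
  have htau : tau L g = φ0 := by
    ext y
    exact hg1 y
  have h2 := tau_tr (L := L) (N := N) hH hgs (by omega) s
  rw [hωV, htau] at h2
  have h3 : ∀ y : T d L, ¬ In y → (tr (HC lam V) s N φ0) y = 0 := by
    intro y hy
    rw [← h2]
    show (tr H s N g) (rep y) = 0
    unfold In at hy
    push Not at hy
    obtain ⟨j, hj⟩ := hy
    by_contra h4
    have h5 := supp_tr (N := N) hH hgs s (rep y) h4 j
    omega
  have h4 := tr_err (HC lam V) s (4 * d + 1) N (HC_norm fun x => by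
    rw [abs_mul, abs_of_nonneg h0]
    nlinarith [hV x, abs_nonneg (V x)]) hs φ0
  have h5 := pow_le_pow_left₀ (norm_nonneg _) h4 2
  refine le_trans ?_ h5
  rw [← mass_sum]
  unfold outm
  refine Finset.sum_le_sum fun y _ => ?_
  split_ifs with hy
  · positivity
  · rw [PiLp.sub_apply, h3 y hy, sub_zero]

section
variable (μ : Measure ℝ) [IsProbabilityMeasure μ]

/-- the deviation from the average -/
noncomputable def Dv (lam : ℝ) (u : XT d L) (V : T d L → ℝ) (s : ℝ) : ℝ :=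
  ‖ev (HC lam V) s u - mav μ lam s u‖

theorem ev_joint (lam : ℝ) (u : XT d L) :
    Continuous fun p : (T d L → ℝ) × ℝ => ev (HC lam p.1) p.2 u := by
  have h1 : Continuous fun p : (T d L → ℝ) × ℝ => (ev (HC lam p.1) p.2 : XT d L →L[ℂ] XT d L) := by
    unfold ev
    let _ : NormedAlgebra ℚ (XT d L →L[ℂ] XT d L) := NormedAlgebra.restrictScalars ℚ ℂ _
    refine NormedSpace.exp_continuous.comp ?_
    have h2 : Continuous fun p : (T d L → ℝ) × ℝ => (-(p.2 : ℂ) * Complex.I) :=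
      (Complex.continuous_ofReal.comp continuous_snd).neg.mul continuous_const
    exact h2.smul ((HC_cont lam).comp continuous_fst)
  exact h1.clm_apply continuous_const

theorem Dv_joint (lam : ℝ) (u : XT d L) :
    Continuous fun p : (T d L → ℝ) × ℝ => Dv μ lam u p.1 p.2 :=
  ((ev_joint lam u).sub ((mav_cont μ lam u).comp continuous_snd)).norm

theorem Dv_nonneg (lam : ℝ) (u : XT d L) (V : T d L → ℝ) (s : ℝ) : 0 ≤ Dv μ lam u V s :=
  norm_nonneg _

theorem Dv_le (lam : ℝ) (u : XT d L) (V : T d L → ℝ) (s : ℝ) : Dv μ lam u V s ≤ 2 * ‖u‖ := by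
  unfold Dv
  refine (norm_sub_le _ _).trans ?_
  rw [evn]
  have := mav_norm μ lam s u
  linarith

theorem Dv_int (lam : ℝ) (u : XT d L) (t : ℝ) :
    Integrable (fun p : (T d L → ℝ) × ℝ => Dv μ lam u p.1 p.2)
      ((Measure.pi fun _ : T d L => μ).prod (volume.restrict (Set.Ioc 0 t))) := by
  refine Integrable.of_bound (C := 2 * ‖u‖) (Dv_joint μ lam u).aestronglyMeasurable
    (Filter.Eventually.of_forall fun p => ?_)
  rw [Real.norm_eq_abs, abs_of_nonneg (Dv_nonneg μ lam u p.1 p.2)]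
  exact Dv_le μ lam u p.1 p.2

/-- Jensen -/
theorem jens {Ω : Type*} [MeasurableSpace Ω] (P : Measure Ω) [IsProbabilityMeasure P]
    (f : Ω → ℝ) (C c : ℝ) (hc : 0 < c) (h0 : ∀ V, 0 ≤ f V) (hC : ∀ V, f V ≤ C)
    (hm : AEStronglyMeasurable f P) (h : ∫ V, f V ^ 2 ∂P ≤ c ^ 2) : ∫ V, f V ∂P ≤ c := by
  have i1 : Integrable (fun V => f V ^ 2) P := by
    refine Integrable.of_bound (C := C ^ 2) (hm.pow 2)
      (Filter.Eventually.of_forall fun V => ?_)
    rw [Real.norm_eq_abs, abs_of_nonneg (by positivity)]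
    exact pow_le_pow_left₀ (h0 V) (hC V) 2
  have i2 : Integrable f P := by
    refine Integrable.of_bound (C := C) hm (Filter.Eventually.of_forall fun V => ?_)
    rw [Real.norm_eq_abs, abs_of_nonneg (h0 V)]
    exact hC V
  have h3 : ∀ V, f V ≤ 1 / (2 * c) * f V ^ 2 + c / 2 := by
    intro V
    have e : 1 / (2 * c) * f V ^ 2 + c / 2 - f V = (f V - c) ^ 2 / (2 * c) := by
      field_simp
      ring
    have : 0 ≤ (f V - c) ^ 2 / (2 * c) := by positivity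
    linarith
  have i3 : Integrable (fun V => 1 / (2 * c) * f V ^ 2) P := i1.const_mul _
  have h4 := integral_mono i2 (i3.add (integrable_const (c / 2))) h3
  refine h4.trans ?_
  have h5 : ∫ V, (1 / (2 * c) * f V ^ 2 + c / 2) ∂P =
      1 / (2 * c) * ∫ V, f V ^ 2 ∂P + c / 2 := by
    rw [integral_add i3 (integrable_const _), integral_const_mul]
    simp
  refine (le_of_eq h5).trans ?_
  calc _ ≤ 1 / (2 * c) * c ^ 2 + c / 2 := by gcongr
    _ = c := by field_simp; ring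

theorem best_mav (lam : ℝ) (u : XT d L) (s c : ℝ) (mm : XT d L)
    (h : ∫ V, ‖ev (HC lam V) s u - mm‖ ^ 2 ∂(Measure.pi fun _ : T d L => μ) ≤ c) :
    ∫ V, ‖ev (HC lam V) s u - mav μ lam s u‖ ^ 2 ∂(Measure.pi fun _ : T d L => μ) ≤ c := by
  have h1 := best (Measure.pi fun _ : T d L => μ) (fun V => ev (HC lam V) s u) (ev_int μ lam s u)
    ‖u‖ (fun V => (evn lam V s u).le) mm
  exact h1.trans h

theorem Dv_sq (lam : ℝ) (u : XT d L) (s c : ℝ)
    (h : ∫ V, ‖ev (HC lam V) s u - mav μ lam s u‖ ^ 2 ∂(Measure.pi fun _ : T d L => μ) ≤ c) :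
    ∫ V, Dv μ lam u V s ^ 2 ∂(Measure.pi fun _ : T d L => μ) ≤ c := by
  unfold Dv
  exact h

theorem Dv_cont (lam : ℝ) (u : XT d L) (s : ℝ) : Continuous fun V : T d L → ℝ => Dv μ lam u V s := by
  have h := (Dv_joint μ lam u).comp
    ((continuous_id (X := T d L → ℝ)).prodMk (continuous_const (y := s)))
  exact h

theorem Dv_mean (lam : ℝ) (u : XT d L) (s c : ℝ) (hc : 0 < c) (mm : XT d L)
    (h : ∫ V, ‖ev (HC lam V) s u - mm‖ ^ 2 ∂(Measure.pi fun _ : T d L => μ) ≤ c ^ 2) :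
    ∫ V, Dv μ lam u V s ∂(Measure.pi fun _ : T d L => μ) ≤ c := by
  have h2 := Dv_sq μ lam u s (c ^ 2) (best_mav μ lam u s (c ^ 2) mm h)
  have h3 := (Dv_cont μ lam u s).aestronglyMeasurable (μ := Measure.pi fun _ : T d L => μ)
  have h4 := Dv_nonneg μ lam u
  have h5 := Dv_le μ lam u
  exact jens (Measure.pi fun _ : T d L => μ) (fun V => Dv μ lam u V s) (2 * ‖u‖) c hc
    (fun V => h4 V s) (fun V => h5 V s) h3 h2

/-- **the mass far from the classical position, on the torus** -/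
theorem far_torus (hd : 1 ≤ d) (lam c0 η m : ℝ) (G : Set (T d L → ℝ)) (hGm : MeasurableSet G)
    (hG : ∀ V ∈ G, ∃ ψ : T d L → ℝ, Gd lam c0 η m V ψ) (u : XT d L) (hu : u ≠ 0)
    (q : Fin d → ℝ) (ϑ κ ρ r t β : ℝ) (hϑ : 0 < ϑ) (hϑ1 : ϑ ≤ 1 / 100) (hη0 : 0 ≤ η) (hη : η ≤ ϑ)
    (hκ : 0 < κ) (hr : 0 < r) (ht : 0 ≤ t) (hβ : 0 < β)
    (hS : ∑ j, Real.sin (q j) ^ 2 ≤ κ ^ 2)
    (hDir : Dir (fun y => u y) + 3 * m * ‖u‖ ^ 2 ≤
      (∑ j, Real.sin (q j) ^ 2 + 7 * ϑ * κ ^ 2) * ‖u‖ ^ 2)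
    (hmom : ∀ j, ‖Sh j u - Complex.exp (q j * Complex.I) • u‖ ≤ ϑ * κ * ‖u‖)
    (hρ : wm Q u ≤ ρ ^ 2 * ‖u‖ ^ 2) (R N : ℕ) (hsupp : ∀ y, u y ≠ 0 → ∀ i, |rep y i| ≤ R)
    (hRN : 2 * (R + N) + 2 < L) (hN : 24 * ((4 * d + 1) * t) ≤ N)
    (htail : 12 * d * (L : ℝ) ^ 2 * Real.exp (-(N : ℝ)) ≤ ϑ * κ)
    (hvar : ∀ s ∈ Set.Icc 0 t, ∃ mm : XT d L,
      ∫ V, ‖ev (HC lam V) s u - mm‖ ^ 2 ∂(Measure.pi fun _ : T d L => μ) ≤ (β * ‖u‖) ^ 2) :
    ∫ V, farm (fun j => t * (2 * Real.sin (q j))) r (ev (HC lam V) t u)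
        ∂(Measure.pi fun _ : T d L => μ) ≤
      ((Measure.pi fun _ : T d L => μ).real Gᶜ + 2 * ϑ ^ 2 +
        2 / r ^ 2 * ((1 + 2 / ϑ) * (2 * ρ ^ 2 + d / (2 * ϑ)) + (83 + 160 * d) * ϑ * κ ^ 2 * t ^ 2 +
          40 * d * κ ^ 2 * t ^ 2 * β)) * ‖u‖ ^ 2 := by
  set P : Measure (T d L → ℝ) := Measure.pi fun _ : T d L => μ with hP
  set a : Fin d → ℝ := fun j => t * (2 * Real.sin (q j)) with ha
  set c1 := (1 + 2 / ϑ) * (2 * ρ ^ 2 + d / (2 * ϑ)) + (83 + 160 * d) * ϑ * κ ^ 2 * t ^ 2 with hc1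
  have hc10 : 0 ≤ c1 := by positivity
  have hun : 0 < ‖u‖ := norm_pos_iff.2 hu
  -- pointwise
  have hpt : ∀ V : T d L → ℝ, farm a r (ev (HC lam V) t u) ≤
      (Gᶜ.indicator (fun _ => ‖u‖ ^ 2) V + (2 * ϑ ^ 2 + 2 / r ^ 2 * c1) * ‖u‖ ^ 2) +
        2 / r ^ 2 * (40 * d * κ ^ 2 * t * ‖u‖) * ∫ s in (0 : ℝ)..t, Dv μ lam u V s := by
    intro V
    have hI0 : 0 ≤ ∫ s in (0 : ℝ)..t, Dv μ lam u V s :=
      intervalIntegral.integral_nonneg ht fun s _ => Dv_nonneg μ lam u V s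
    by_cases hV : V ∈ G
    · rw [Set.indicator_of_notMem (by simpa using hV), zero_add]
      obtain ⟨ψ, h⟩ := hG V hV
      have hsplit : ev (HC lam V) t u = ev (HC lam V) t (Mu ψ u) + ev (HC lam V) t (u - Mu ψ u) := by
        rw [← map_add]
        congr 1
        abel
      have h1 := farm_add a r (ev (HC lam V) t (Mu ψ u)) (ev (HC lam V) t (u - Mu ψ u))
      rw [← hsplit, evn] at h1
      have h2 : ‖u - Mu ψ u‖ ≤ ϑ * ‖u‖ := (mu_close h u).trans (by gcongr)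
      have h3 : ‖u - Mu ψ u‖ ^ 2 ≤ ϑ ^ 2 * ‖u‖ ^ 2 := by
        have := pow_le_pow_left₀ (norm_nonneg _) h2 2
        linarith [mul_pow ϑ ‖u‖ 2]
      have hφ0n : ‖Mu ψ u‖ ≤ 2 * ‖u‖ := (mu_norm h u).trans (by gcongr; linarith)
      have hsupp' : ∀ y, (Mu ψ u) y ≠ 0 → ∀ i, |rep y i| ≤ R := by
        intro y hy
        apply hsupp y
        intro h0
        apply hy
        rw [Mu_apply, h0, mul_zero]
      have hdet := det_bound h hd u hu (fun s => mav μ lam s u) q ϑ κ ρ hϑ hϑ1 hη hκ hS hDir t ht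
        (Real.exp (-(N : ℝ)) * ‖Mu ψ u‖) (by positivity)
        (fun s hs => tail_ok lam h.lam0 h.lam1 V h.hV (Mu ψ u) R N hsupp' hRN s (by
          refine le_trans ?_ hN
          rw [abs_of_nonneg hs.1]
          have := hs.2
          gcongr))
        (by
          calc 6 * d * (L : ℝ) ^ 2 * (Real.exp (-(N : ℝ)) * ‖Mu ψ u‖)
              ≤ 6 * d * (L : ℝ) ^ 2 * (Real.exp (-(N : ℝ)) * (2 * ‖u‖)) := by gcongr
            _ = 12 * d * (L : ℝ) ^ 2 * Real.exp (-(N : ℝ)) * ‖u‖ := by ring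
            _ ≤ ϑ * κ * ‖u‖ := by gcongr)
        (mav_cont μ lam u) (fun s => mav_norm μ lam s u)
        (fun s j => by
          rw [mav_shift, ← mav_sub]
          refine (mav_norm μ lam s _).trans ((sh_le_dir u j).trans ?_)
          exact Real.sqrt_le_sqrt (dir_KK h u))
        (fun s j => by
          rw [mav_shift, ← mav_smul, ← mav_sub]
          exact (mav_norm μ lam s _).trans (hmom j))
        hρ
      have h4 := farm_am a r hr (ev (HC lam V) t (Mu ψ u))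
      have h5 : farm a r (ev (HC lam V) t (Mu ψ u)) ≤
          1 / r ^ 2 * (c1 * ‖u‖ ^ 2 + 40 * d * κ ^ 2 * t * ‖u‖ *
            ∫ s in (0 : ℝ)..t, Dv μ lam u V s) := by
        refine h4.trans ?_
        rw [div_eq_mul_one_div, mul_comm]
        apply mul_le_mul_of_nonneg_left _ (by positivity)
        refine hdet.trans (le_of_eq ?_)
        rw [hc1]
        unfold Dv
        ring
      calc farm a r (ev (HC lam V) t u) ≤ 2 * (1 / r ^ 2 * (c1 * ‖u‖ ^ 2 +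
            40 * d * κ ^ 2 * t * ‖u‖ * ∫ s in (0 : ℝ)..t, Dv μ lam u V s)) +
            2 * (ϑ ^ 2 * ‖u‖ ^ 2) := by linarith
        _ = _ := by ring
    · rw [Set.indicator_of_mem (show V ∈ Gᶜ from hV)]
      have h1 := farm_le_norm a r (ev (HC lam V) t u)
      rw [evn] at h1
      have h2 : 0 ≤ (2 * ϑ ^ 2 + 2 / r ^ 2 * c1) * ‖u‖ ^ 2 := by positivity
      have h3 : 0 ≤ 2 / r ^ 2 * (40 * d * κ ^ 2 * t * ‖u‖) *
          ∫ s in (0 : ℝ)..t, Dv μ lam u V s := by positivity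
      linarith
  -- integrability
  have i1 : Integrable (fun V => farm a r (ev (HC lam V) t u)) P := by
    refine Integrable.of_bound (C := ‖u‖ ^ 2) ?_ (Filter.Eventually.of_forall fun V => ?_)
    · have : Continuous fun V : T d L → ℝ => farm a r (ev (HC lam V) t u) := by
        unfold farm
        refine continuous_finsetSum _ fun x _ => ?_
        split_ifs
        · exact ((EuclideanSpace.proj x : XT d L →L[ℂ] ℂ).continuous.comp
            (ev_V_cont lam t u)).norm.pow 2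
        · exact continuous_const
      exact this.aestronglyMeasurable
    · rw [Real.norm_eq_abs, abs_of_nonneg (farm_nonneg _ _ _)]
      have h1 := farm_le_norm a r (ev (HC lam V) t u)
      rwa [evn] at h1
  have i2 : Integrable (Gᶜ.indicator fun _ : T d L → ℝ => ‖u‖ ^ 2) P :=
    (integrable_const _).indicator hGm.compl
  have hII : ∀ V : T d L → ℝ, ∫ s in (0 : ℝ)..t, Dv μ lam u V s =
      ∫ s in Set.Ioc 0 t, Dv μ lam u V s := fun V => intervalIntegral.integral_of_le ht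
  have i3 : Integrable (fun V => ∫ s in (0 : ℝ)..t, Dv μ lam u V s) P := by
    simp only [hII]
    exact (Dv_int μ lam u t).integral_prod_left
  have i4 : Integrable (fun V => 2 / r ^ 2 * (40 * d * κ ^ 2 * t * ‖u‖) *
      ∫ s in (0 : ℝ)..t, Dv μ lam u V s) P := i3.const_mul _
  have i5 : Integrable (fun V => Gᶜ.indicator (fun _ : T d L → ℝ => ‖u‖ ^ 2) V +
      (2 * ϑ ^ 2 + 2 / r ^ 2 * c1) * ‖u‖ ^ 2) P := i2.add (integrable_const _)
  have h1 := integral_mono i1 (i5.add i4) hpt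
  refine h1.trans ?_
  have hval : ∫ V, Gᶜ.indicator (fun _ : T d L → ℝ => ‖u‖ ^ 2) V ∂P = P.real Gᶜ * ‖u‖ ^ 2 := by
    rw [integral_indicator hGm.compl, setIntegral_const, smul_eq_mul]
  have h2 : ∫ V, ((Gᶜ.indicator (fun _ : T d L → ℝ => ‖u‖ ^ 2) V +
      (2 * ϑ ^ 2 + 2 / r ^ 2 * c1) * ‖u‖ ^ 2) + 2 / r ^ 2 * (40 * d * κ ^ 2 * t * ‖u‖) *
        ∫ s in (0 : ℝ)..t, Dv μ lam u V s) ∂P =
      (P.real Gᶜ * ‖u‖ ^ 2 + (2 * ϑ ^ 2 + 2 / r ^ 2 * c1) * ‖u‖ ^ 2) +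
        2 / r ^ 2 * (40 * d * κ ^ 2 * t * ‖u‖) *
          ∫ V, (∫ s in (0 : ℝ)..t, Dv μ lam u V s) ∂P := by
    have e1 : ∫ V, 2 / r ^ 2 * (40 * d * κ ^ 2 * t * ‖u‖) *
        (∫ s in (0 : ℝ)..t, Dv μ lam u V s) ∂P = 2 / r ^ 2 * (40 * d * κ ^ 2 * t * ‖u‖) *
          ∫ V, (∫ s in (0 : ℝ)..t, Dv μ lam u V s) ∂P := integral_const_mul _ _
    have e2 : ∫ V : T d L → ℝ, (2 * ϑ ^ 2 + 2 / r ^ 2 * c1) * ‖u‖ ^ 2 ∂P =
        (2 * ϑ ^ 2 + 2 / r ^ 2 * c1) * ‖u‖ ^ 2 := by simp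
    rw [integral_add i5 i4, integral_add i2 (integrable_const _), hval, e1, e2]
  refine (le_of_eq h2).trans ?_
  have h3 : ∫ V, (∫ s in (0 : ℝ)..t, Dv μ lam u V s) ∂P ≤ t * (β * ‖u‖) := by
    simp only [hII]
    rw [integral_integral_swap (Dv_int μ lam u t)]
    have h4 : ∫ s in Set.Ioc 0 t, (∫ V, Dv μ lam u V s ∂P) ≤ ∫ _ in Set.Ioc (0 : ℝ) t, β * ‖u‖ := by
      refine setIntegral_mono_on ?_ ?_ measurableSet_Ioc fun s hs => ?_
      · exact (Dv_int μ lam u t).integral_prod_right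
      · show Integrable (fun _ : ℝ => β * ‖u‖) (volume.restrict (Set.Ioc 0 t))
        exact integrable_const _
      · obtain ⟨mm, hmm⟩ := hvar s ⟨hs.1.le, hs.2⟩
        exact Dv_mean μ lam u s (β * ‖u‖) (by positivity) mm hmm
    refine h4.trans (le_of_eq ?_)
    simp [ht]
  calc _ ≤ (P.real Gᶜ * ‖u‖ ^ 2 + (2 * ϑ ^ 2 + 2 / r ^ 2 * c1) * ‖u‖ ^ 2) +
        2 / r ^ 2 * (40 * d * κ ^ 2 * t * ‖u‖) * (t * (β * ‖u‖)) := by gcongr
    _ = _ := by
      rw [hc1]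
      ring

end

end Pool.Agent.V8H95.BW
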