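import Pool.Agent.V8H95.BW.Pos

/-!
The first two moments of the position of a dressed wave.
-/

set_option autoImplicit false
set_option linter.unusedSectionVars false

open Complex MeasureTheory
open scoped BigOperators ComplexConjugate

namespace Pool.Agent.V8H95.BW

open Pool.Agent.H4R2.AE Pool.Agent.V8H99.AD Pool.Agent.V8H95.MF

variable {d L : ℕ} [NeZero L] {lam c0 η m : ℝ} {V ψ : T d L → ℝ}

theorem wm_nonneg (F : T d L → ℝ) (hF : ∀ x, 0 ≤ F x) (φ : XT d L) : 0 ≤ wm F φ :=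
  Finset.sum_nonneg fun x _ => mul_nonneg (hF x) (by positivity)

theorem Q_nonneg (x : T d L) : 0 ≤ Q x := Finset.sum_nonneg fun _ _ => by positivity

theorem mass_sum (φ : XT d L) : ∑ x, ‖φ x‖ ^ 2 = ‖φ‖ ^ 2 := (EuclideanSpace.norm_sq_eq φ).symm

theorem weight_le (φ : XT d L) (ϑ : ℝ) (hϑ : 0 < ϑ) :
    ∑ i : Fin d, ∑ x : T d L, (2 * X i x + 1) ^ 2 * ‖φ x‖ ^ 2 ≤
      4 * (1 + ϑ) * (wm Q φ + d * ‖φ‖ ^ 2 / (4 * ϑ)) := by
  have h1 : ∀ (i : Fin d) (x : T d L), (2 * X i x + 1) ^ 2 ≤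
      4 * (1 + ϑ) * (X i x ^ 2 + 1 / (4 * ϑ)) := by
    intro i x
    have e : 4 * (1 + ϑ) * (X i x ^ 2 + 1 / (4 * ϑ)) - (2 * X i x + 1) ^ 2 =
        (2 * ϑ * X i x - 1) ^ 2 / ϑ := by
      field_simp
      ring
    have : 0 ≤ (2 * ϑ * X i x - 1) ^ 2 / ϑ := by positivity
    linarith
  calc ∑ i : Fin d, ∑ x : T d L, (2 * X i x + 1) ^ 2 * ‖φ x‖ ^ 2
      ≤ ∑ i : Fin d, ∑ x : T d L, (4 * (1 + ϑ) * (X i x ^ 2 + 1 / (4 * ϑ))) * ‖φ x‖ ^ 2 :=
        Finset.sum_le_sum fun i _ => Finset.sum_le_sum fun x _ =>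
          mul_le_mul_of_nonneg_right (h1 i x) (by positivity)
    _ = 4 * (1 + ϑ) * (wm Q φ + d * ‖φ‖ ^ 2 / (4 * ϑ)) := by
        rw [Finset.sum_comm, ← mass_sum φ]
        unfold wm Q
        rw [Finset.mul_sum, Finset.sum_div, ← Finset.sum_add_distrib, Finset.mul_sum]
        refine Finset.sum_congr rfl fun x _ => ?_
        rw [← Finset.sum_mul, ← Finset.mul_sum, Finset.sum_add_distrib, Finset.sum_const,
          Finset.card_univ, Fintype.card_fin, nsmul_eq_mul]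
        ring

theorem second_moment (h : Gd lam c0 η m V ψ) (hd : 1 ≤ d) (u : XT d L) (hu : u ≠ 0)
    (ϑ : ℝ) (hϑ : 0 < ϑ) (hϑ1 : ϑ ≤ 1) (t : ℝ) (ht : 0 ≤ t) (e : ℝ) (he : 0 ≤ e)
    (hout : ∀ s ∈ Set.Icc 0 t, outm (ev (HC lam V) s (Mu ψ u)) ≤ e ^ 2) :
    √(wm Q (ev (HC lam V) t (Mu ψ u)) + d * ‖Mu ψ u‖ ^ 2 / (4 * ϑ)) ≤
      √(wm Q (Mu ψ u) + d * ‖Mu ψ u‖ ^ 2 / (4 * ϑ)) +
        (2 * (√(1 + ϑ) * √((1 + η) * KK η m u)) + 6 * d * (L : ℝ) ^ 2 * e) * t := by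
  set φ0 := Mu ψ u with hφ0
  have hd1 : (1 : ℝ) ≤ d := by exact_mod_cast hd
  have hφ00 : φ0 ≠ 0 := by
    intro h0
    apply hu
    have h1 : und ψ (Mu ψ u) = u := by
      ext x
      have hp : 0 < ψ x := lt_of_lt_of_le one_pos (h.lo x)
      unfold und
      rw [Mu_apply, Mu_apply, ← mul_assoc, ← Complex.ofReal_mul, inv_mul_cancel₀ hp.ne',
        Complex.ofReal_one, one_mul]
    rw [← h1, ← hφ0, h0]
    unfold und
    exact map_zero _
  have hn : 0 < ‖φ0‖ := norm_pos_iff.2 hφ00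
  set B := d * ‖φ0‖ ^ 2 / (4 * ϑ) with hB
  have hB0 : 0 < B := by positivity
  have hsB : ‖φ0‖ ≤ 2 * √B := by
    have h1 : (‖φ0‖ / 2) ^ 2 ≤ B := by
      rw [hB, le_div_iff₀ (by positivity)]
      have : ϑ * ‖φ0‖ ^ 2 ≤ d * ‖φ0‖ ^ 2 := by gcongr; linarith
      linarith
    have h2 := Real.le_sqrt_of_sq_le h1
    linarith
  have h0 : ev (HC lam V) 0 φ0 = φ0 := ev_zero _ _
  have key := gron (fun s => wm Q (ev (HC lam V) s φ0) + B)
    (fun s => 2 * ∑ i : Fin d, ∑ x, (Q (x + Pi.single i 1) - Q x) * J (ev (HC lam V) s φ0) i x)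
    (2 * (√(1 + ϑ) * √((1 + η) * KK η m u)) + 6 * d * (L : ℝ) ^ 2 * e) t ht
    (fun s => (wm_deriv lam V Q φ0 s).add_const B)
    (fun s _ => by
      have := wm_nonneg Q Q_nonneg (ev (HC lam V) s φ0)
      linarith) (fun s hs => ?_)
  · simp only [h0] at key
    exact key
  · set φ := ev (HC lam V) s φ0 with hφ
    have hφn : ‖φ‖ = ‖φ0‖ := evn lam V s φ0
    have a1 := second_cur φ e he (hout s hs)
    rw [hφn] at a1
    have a2 := wcur h u s (fun i x => 2 * X i x + 1)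
    rw [← hφ0, ← hφ] at a2
    have a3 := weight_le φ ϑ hϑ
    rw [hφn, ← hB] at a3
    have a4 : √(∑ i : Fin d, ∑ x : T d L, (2 * X i x + 1) ^ 2 * ‖φ x‖ ^ 2) ≤
        2 * √(1 + ϑ) * √(wm Q φ + B) := by
      have hQ0 := wm_nonneg Q Q_nonneg φ
      refine (Real.sqrt_le_sqrt a3).trans (le_of_eq ?_)
      rw [Real.sqrt_mul (by positivity), Real.sqrt_mul (by norm_num)]
      congr 2
      rw [show (4 : ℝ) = 2 ^ 2 by norm_num, Real.sqrt_sq (by norm_num)]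
    have hf0 : √B ≤ √(wm Q φ + B) := by
      apply Real.sqrt_le_sqrt
      have := wm_nonneg Q Q_nonneg φ
      linarith
    have a5 : |∑ i : Fin d, ∑ x, (2 * X i x + 1) * J φ i x| ≤
        2 * √(1 + ϑ) * √(wm Q φ + B) * √((1 + η) * KK η m u) := by
      refine a2.trans ?_
      gcongr
    have a6 : d * (3 * (L : ℝ) ^ 2 * (e * ‖φ0‖)) ≤
        6 * d * (L : ℝ) ^ 2 * e * √(wm Q φ + B) := by
      calc d * (3 * (L : ℝ) ^ 2 * (e * ‖φ0‖)) ≤ d * (3 * (L : ℝ) ^ 2 * (e * (2 * √B))) := by gcongr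
        _ = 6 * d * (L : ℝ) ^ 2 * e * √B := by ring
        _ ≤ _ := by gcongr
    have a7 := (abs_sub_le_iff.1 a1).1
    have a8 := le_abs_self (∑ i : Fin d, ∑ x, (2 * X i x + 1) * J φ i x)
    have a9 : ∑ i : Fin d, ∑ x, (Q (x + Pi.single i 1) - Q x) * J φ i x ≤
        (2 * (√(1 + ϑ) * √((1 + η) * KK η m u)) + 6 * d * (L : ℝ) ^ 2 * e) *
          √(wm Q φ + B) := by
      calc _ ≤ |∑ i : Fin d, ∑ x, (2 * X i x + 1) * J φ i x| +
            d * (3 * (L : ℝ) ^ 2 * (e * ‖φ0‖)) := by linarith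
        _ ≤ 2 * √(1 + ϑ) * √(wm Q φ + B) * √((1 + η) * KK η m u) +
            6 * d * (L : ℝ) ^ 2 * e * √(wm Q φ + B) := add_le_add a5 a6
        _ = _ := by ring
    linarith

theorem ev_cont_s (lam : ℝ) (V : T d L → ℝ) (f : XT d L) :
    Continuous fun s : ℝ => ev (HC lam V) s f := by
  rw [continuous_iff_continuousAt]
  exact fun s => (ev_deriv (HC lam V) s f).continuousAt

theorem J_cont (lam : ℝ) (V : T d L → ℝ) (f : XT d L) (i : Fin d) (x : T d L) :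
    Continuous fun s : ℝ => J (ev (HC lam V) s f) i x := by
  unfold J
  have h1 : ∀ y : T d L, Continuous fun s : ℝ => (ev (HC lam V) s f) y := fun y =>
    (EuclideanSpace.proj y : XT d L →L[ℂ] ℂ).continuous.comp (ev_cont_s lam V f)
  exact Complex.continuous_im.comp ((Complex.continuous_conj.comp (h1 x)).mul (h1 _))

/-- the mean position -/
theorem first_moment (h : Gd lam c0 η m V ψ) (u : XT d L) (w : ℝ → XT d L) (q σ : ℝ) (j : Fin d)
    (t : ℝ) (ht : 0 ≤ t) (e : ℝ) (he : 0 ≤ e)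
    (hout : ∀ s ∈ Set.Icc 0 t, outm (ev (HC lam V) s (Mu ψ u)) ≤ e ^ 2) (hwc : Continuous w)
    (hw : ∀ s, ‖w s‖ ≤ ‖u‖) (hw2 : ∀ s, ‖Sh j (w s) - w s‖ ≤ √(KK η m u))
    (hw3 : ∀ s, ‖Sh j (w s) - Complex.exp (q * Complex.I) • w s‖ ≤ σ) :
    |wm (X j) (ev (HC lam V) t (Mu ψ u)) - wm (X j) (Mu ψ u) - t * (2 * Real.sin q * ‖u‖ ^ 2)| ≤
      t * (24 * η * ‖u‖ * √(KK η m u) + 2 * ‖u‖ * σ + 4 * d * L * e * ‖Mu ψ u‖) +
      (4 * √(KK η m u) + 4 * |Real.sin q| * ‖u‖) *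
        ∫ s in (0 : ℝ)..t, ‖ev (HC lam V) s u - w s‖ := by
  set φ0 := Mu ψ u with hφ0
  set F' : ℝ → ℝ := fun s => 2 * ∑ i : Fin d, ∑ x, (X j (x + Pi.single i 1) - X j x) *
    J (ev (HC lam V) s φ0) i x with hF'
  have hF'c : Continuous F' := by
    refine continuous_const.mul (continuous_finsetSum _ fun i _ => continuous_finsetSum _
      fun x _ => continuous_const.mul (J_cont lam V φ0 i x))
  have hftc : ∫ s in (0 : ℝ)..t, F' s =
      wm (X j) (ev (HC lam V) t φ0) - wm (X j) (ev (HC lam V) 0 φ0) :=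
    intervalIntegral.integral_eq_sub_of_hasDerivAt
      (fun s _ => wm_deriv lam V (X j) φ0 s) (hF'c.intervalIntegrable _ _)
  have h0 : ev (HC lam V) 0 φ0 = φ0 := ev_zero _ _
  rw [h0] at hftc
  set c := 2 * Real.sin q * ‖u‖ ^ 2 with hc
  have hsub : wm (X j) (ev (HC lam V) t φ0) - wm (X j) φ0 - t * c =
      ∫ s in (0 : ℝ)..t, (F' s - c) := by
    rw [intervalIntegral.integral_sub (hF'c.intervalIntegrable _ _)
      (continuous_const.intervalIntegrable _ _), hftc, intervalIntegral.integral_const]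
    simp
  have hDc : Continuous fun s => ‖ev (HC lam V) s u - w s‖ :=
    ((ev_cont_s lam V u).sub hwc).norm
  set b1 := 24 * η * ‖u‖ * √(KK η m u) + 2 * ‖u‖ * σ + 4 * d * L * e * ‖φ0‖ with hb1
  set b2 := 4 * √(KK η m u) + 4 * |Real.sin q| * ‖u‖ with hb2
  have hE : ∀ s ∈ Set.Icc 0 t, |F' s - c| ≤ b1 + b2 * ‖ev (HC lam V) s u - w s‖ := by
    intro s hs
    have a1 := first_cur (ev (HC lam V) s φ0) e he (hout s hs) j
    rw [evn] at a1
    have a2 := cur_main h u (w s) s q σ j (hw s) (hw2 s) (hw3 s)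
    rw [← hφ0] at a2
    have e1 : F' s - c = 2 * ((∑ i : Fin d, ∑ x, (X j (x + Pi.single i 1) - X j x) *
        J (ev (HC lam V) s φ0) i x) - cur (ev (HC lam V) s φ0) j) +
        2 * (cur (ev (HC lam V) s φ0) j - Real.sin q * ‖u‖ ^ 2) := by
      rw [hF', hc]
      ring
    rw [e1]
    refine (abs_add_le _ _).trans ?_
    rw [abs_mul, abs_mul, abs_two, hb1, hb2]
    linarith
  rw [hsub]
  have h3 := intervalIntegral.norm_integral_le_of_norm_le (μ := volume) (a := 0) (b := t)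
    (f := fun s => F' s - c) (g := fun s => b1 + b2 * ‖ev (HC lam V) s u - w s‖) ht
    (Filter.Eventually.of_forall fun s hs => by
      rw [Real.norm_eq_abs]
      exact hE s ⟨hs.1.le, hs.2⟩)
    ((continuous_const.add (continuous_const.mul hDc)).intervalIntegrable _ _)
  rw [Real.norm_eq_abs] at h3
  refine h3.trans (le_of_eq ?_)
  have i1 : IntervalIntegrable (fun _ : ℝ => b1) volume 0 t := continuous_const.intervalIntegrable _ _
  have i2 : IntervalIntegrable (fun s : ℝ => b2 * ‖ev (HC lam V) s u - w s‖) volume 0 t :=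
    (continuous_const.mul hDc).intervalIntegrable _ _
  rw [intervalIntegral.integral_add i1 i2, intervalIntegral.integral_const,
    intervalIntegral.integral_const_mul]
  simp

/-- the mass far from a moving point -/
noncomputable def Am (a : Fin d → ℝ) (φ : XT d L) : ℝ :=
  ∑ x, (∑ j, (X j x - a j) ^ 2) * ‖φ x‖ ^ 2

theorem Am_eq (a : Fin d → ℝ) (φ : XT d L) :
    Am a φ = wm Q φ - 2 * ∑ j, a j * wm (X j) φ + (∑ j, a j ^ 2) * ‖φ‖ ^ 2 := by
  have h1 : ∑ j, a j * wm (X j) φ = ∑ x, (∑ j, a j * X j x) * ‖φ x‖ ^ 2 := by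
    unfold wm
    simp only [Finset.mul_sum]
    rw [Finset.sum_comm]
    refine Finset.sum_congr rfl fun x _ => ?_
    rw [Finset.sum_mul]
    refine Finset.sum_congr rfl fun j _ => ?_
    ring
  rw [h1, ← mass_sum φ]
  unfold Am wm Q
  rw [Finset.mul_sum, Finset.mul_sum, ← Finset.sum_sub_distrib, ← Finset.sum_add_distrib]
  refine Finset.sum_congr rfl fun x _ => ?_
  have h2 : ∑ j, (X j x - a j) ^ 2 = ∑ j, X j x ^ 2 - 2 * ∑ j, a j * X j x + ∑ j, a j ^ 2 := by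
    rw [Finset.mul_sum, ← Finset.sum_sub_distrib, ← Finset.sum_add_distrib]
    exact Finset.sum_congr rfl fun j _ => by ring
  rw [h2]
  ring

theorem first_le (a : Fin d → ℝ) (φ : XT d L) :
    |∑ j, a j * wm (X j) φ| ≤ √(∑ j, a j ^ 2) * (√(wm Q φ) * ‖φ‖) := by
  have h1 : ∑ j, a j * wm (X j) φ = ∑ x, (∑ j, a j * X j x) * ‖φ x‖ ^ 2 := by
    unfold wm
    simp only [Finset.mul_sum]
    rw [Finset.sum_comm]
    refine Finset.sum_congr rfl fun x _ => ?_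
    rw [Finset.sum_mul]
    refine Finset.sum_congr rfl fun j _ => ?_
    ring
  rw [h1]
  have h2 : ∀ x : T d L, |(∑ j, a j * X j x) * ‖φ x‖ ^ 2| ≤
      √(∑ j, a j ^ 2) * ((√(Q x) * ‖φ x‖) * ‖φ x‖) := by
    intro x
    rw [abs_mul, abs_of_nonneg (show (0 : ℝ) ≤ ‖φ x‖ ^ 2 by positivity)]
    have h3 : |∑ j, a j * X j x| ≤ √(∑ j, a j ^ 2) * √(Q x) := by
      rw [abs_le]
      constructor
      · have h4 := Real.sum_mul_le_sqrt_mul_sqrt Finset.univ (fun j => a j) (fun j => -X j x)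
        simp only [mul_neg, Finset.sum_neg_distrib, neg_sq] at h4
        unfold Q
        linarith
      · exact Real.sum_mul_le_sqrt_mul_sqrt Finset.univ (fun j => a j) (fun j => X j x)
    calc _ ≤ (√(∑ j, a j ^ 2) * √(Q x)) * ‖φ x‖ ^ 2 := by gcongr
      _ = _ := by ring
  refine (Finset.abs_sum_le_sum_abs _ _).trans ((Finset.sum_le_sum fun x _ => h2 x).trans ?_)
  rw [← Finset.mul_sum]
  apply mul_le_mul_of_nonneg_left _ (Real.sqrt_nonneg _)
  refine (cs_sum _ _).trans ?_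
  rw [mass_sum, Real.sqrt_sq (norm_nonneg _)]
  apply mul_le_mul_of_nonneg_right _ (norm_nonneg _)
  apply Real.sqrt_le_sqrt
  unfold wm
  refine Finset.sum_le_sum fun x _ => ?_
  rw [mul_pow, Real.sq_sqrt (Q_nonneg x)]

theorem wm_mu (h : Gd lam c0 η m V ψ) (u : XT d L) :
    wm Q (Mu ψ u) ≤ (1 + η) ^ 2 * wm Q u := by
  unfold wm
  rw [Finset.mul_sum]
  refine Finset.sum_le_sum fun x _ => ?_
  have hp : 0 < ψ x := lt_of_lt_of_le one_pos (h.lo x)
  rw [Mu_apply, norm_mul, Complex.norm_real, Real.norm_eq_abs, abs_of_pos hp, mul_pow]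
  have h1 : ψ x ^ 2 ≤ (1 + η) ^ 2 := pow_le_pow_left₀ hp.le (h.hi x) 2
  have h2 := Q_nonneg x
  calc Q x * (ψ x ^ 2 * ‖u x‖ ^ 2) ≤ Q x * ((1 + η) ^ 2 * ‖u x‖ ^ 2) := by gcongr
    _ = _ := by ring

end Pool.Agent.V8H95.BW
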