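import Pool.Agent.V8H95.BW.Dr

/-!
The position on the torus; the boundary terms; a differential inequality.
-/

set_option autoImplicit false
set_option linter.unusedSectionVars false

open Complex MeasureTheory
open scoped BigOperators ComplexConjugate

namespace Pool.Agent.V8H95.BW

open Pool.Agent.H4R2.AE Pool.Agent.V8H99.AD Pool.Agent.V8H95.MF

theorem gron (f f' : ℝ → ℝ) (a t : ℝ) (ht : 0 ≤ t) (hf : ∀ s, HasDerivAt f (f' s) s)
    (hpos : ∀ s ∈ Set.Icc 0 t, 0 < f s) (hle : ∀ s ∈ Set.Icc 0 t, f' s ≤ 2 * a * √(f s)) :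
    √(f t) ≤ √(f 0) + a * t := by
  have hd : ∀ s ∈ Set.Icc 0 t, HasDerivAt (fun s => √(f s) - a * s)
      (f' s / (2 * √(f s)) - a) s := by
    intro s hs
    have h1 := (hf s).sqrt (hpos s hs).ne'
    have h2 : HasDerivAt (fun s => a * s) a s := by
      have := (hasDerivAt_id s).const_mul a
      rw [mul_one] at this
      exact this
    exact h1.fun_sub h2
  have hanti : AntitoneOn (fun s => √(f s) - a * s) (Set.Icc 0 t) := by
    refine antitoneOn_of_deriv_nonpos (convex_Icc 0 t)
      (fun s hs => (hd s hs).continuousAt.continuousWithinAt)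
      (fun s hs => ?_) (fun s hs => ?_)
    · rw [interior_Icc] at hs
      exact (hd s ⟨hs.1.le, hs.2.le⟩).differentiableAt.differentiableWithinAt
    · rw [interior_Icc] at hs
      have hs' : s ∈ Set.Icc 0 t := ⟨hs.1.le, hs.2.le⟩
      rw [(hd s hs').deriv, sub_nonpos, div_le_iff₀ (by have := Real.sqrt_pos.2 (hpos s hs'); linarith)]
      have := hle s hs'
      linarith
  have := hanti (Set.left_mem_Icc.2 ht) (Set.right_mem_Icc.2 ht) ht
  simp only [mul_zero, sub_zero] at this
  linarith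

variable {d L : ℕ} [NeZero L]

/-- the coordinates -/
noncomputable def X (j : Fin d) (x : T d L) : ℝ := ((rep x j : ℤ) : ℝ)

/-- the interior -/
def In (x : T d L) : Prop := ∀ j, 2 * |rep x j| + 2 < (L : ℤ)

open Classical in
/-- the mass outside of the interior -/
noncomputable def outm (φ : XT d L) : ℝ := ∑ x, if In x then 0 else ‖φ x‖ ^ 2

theorem X_step_ne (i j : Fin d) (hij : i ≠ j) (x : T d L) : X j (x + Pi.single i 1) = X j x := by
  unfold X rep
  simp [hij.symm]

theorem X_step (i : Fin d) (x : T d L) (hx : In x) : X i (x + Pi.single i 1) = X i x + 1 := by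
  unfold X rep
  have h := step (x i) 1 (Or.inl rfl)
  have h2 := hx i
  unfold rep at h2
  rcases h with h | ⟨h, -⟩
  · simp only [Pi.add_apply, Pi.single_eq_same]
    simp only [Int.cast_one] at h
    rw [h]
    push_cast
    ring
  · exfalso
    have := abs_add_le (x i).valMinAbs 1
    rw [abs_one] at this
    omega

theorem X_bound (i : Fin d) (x : T d L) : |X i x| ≤ L / 2 := by
  unfold X rep
  have h := (x i).valMinAbs_mem_Ioc
  obtain ⟨h1, h2⟩ := h
  rw [abs_le]
  have h1' : -(L : ℝ) ≤ ((x i).valMinAbs : ℝ) * 2 := by exact_mod_cast h1.le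
  have h2' : ((x i).valMinAbs : ℝ) * 2 ≤ (L : ℝ) := by exact_mod_cast h2
  constructor <;> linarith

theorem bdry (φ : XT d L) (e B : ℝ) (he : 0 ≤ e) (hB : 0 ≤ B) (hout : outm φ ≤ e ^ 2)
    (b : Fin d → T d L → ℝ) (hb0 : ∀ i x, In x → b i x = 0) (hb : ∀ i x, |b i x| ≤ B) :
    |∑ i : Fin d, ∑ x, b i x * J φ i x| ≤ d * (B * (e * ‖φ‖)) := by
  classical
  have h1 : ∀ i : Fin d, |∑ x, b i x * J φ i x| ≤ B * (e * ‖φ‖) := by
    intro i
    have h2 : |∑ x, b i x * J φ i x| ≤
        ∑ x, B * ((if In x then 0 else ‖φ x‖) * ‖φ (x + Pi.single i 1)‖) := by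
      refine (Finset.abs_sum_le_sum_abs _ _).trans (Finset.sum_le_sum fun x _ => ?_)
      by_cases hx : In x
      · rw [hb0 i x hx, if_pos hx]
        simp
      · rw [if_neg hx, abs_mul]
        have h3 : |J φ i x| ≤ ‖φ x‖ * ‖φ (x + Pi.single i 1)‖ := by
          refine (Complex.abs_im_le_norm _).trans ?_
          rw [norm_mul, RCLike.norm_conj]
        exact mul_le_mul (hb i x) h3 (abs_nonneg _) hB
    refine h2.trans ?_
    rw [← Finset.mul_sum]
    apply mul_le_mul_of_nonneg_left _ hB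
    refine (cs_sum _ _).trans ?_
    have e1 : ∑ x : T d L, ‖φ (x + Pi.single i 1)‖ ^ 2 = ‖φ‖ ^ 2 := by
      rw [EuclideanSpace.norm_sq_eq]
      exact sum_shift i fun x => ‖φ x‖ ^ 2
    have e2 : ∑ x : T d L, (if In x then 0 else ‖φ x‖) ^ 2 ≤ e ^ 2 := by
      refine le_trans (le_of_eq ?_) hout
      unfold outm
      refine Finset.sum_congr rfl fun x _ => ?_
      split_ifs <;> simp
    rw [e1, Real.sqrt_sq (norm_nonneg _)]
    apply mul_le_mul_of_nonneg_right _ (norm_nonneg _)
    calc _ ≤ √(e ^ 2) := Real.sqrt_le_sqrt e2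
      _ = e := Real.sqrt_sq he
  refine (Finset.abs_sum_le_sum_abs _ _).trans ((Finset.sum_le_sum fun i _ => h1 i).trans ?_)
  simp

theorem L_one' : (1 : ℝ) ≤ L := L_one

/-- the derivative of the mean position -/
theorem first_cur (φ : XT d L) (e : ℝ) (he : 0 ≤ e) (hout : outm φ ≤ e ^ 2) (j : Fin d) :
    |(∑ i : Fin d, ∑ x, (X j (x + Pi.single i 1) - X j x) * J φ i x) - cur φ j| ≤
      d * (2 * L * (e * ‖φ‖)) := by
  have hL := L_one' (L := L)
  have e1 : (∑ i : Fin d, ∑ x, (X j (x + Pi.single i 1) - X j x) * J φ i x) - cur φ j =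
      ∑ i : Fin d, ∑ x, ((X j (x + Pi.single i 1) - X j x) - if i = j then 1 else 0) * J φ i x := by
    have h2 : cur φ j = ∑ i : Fin d, ∑ x : T d L, (if i = j then 1 else 0) * J φ i x := by
      rw [Finset.sum_eq_single j]
      · unfold cur
        simp
      · intro i _ hij
        simp [hij]
      · intro hn
        exact absurd (Finset.mem_univ _) hn
    rw [h2, ← Finset.sum_sub_distrib]
    refine Finset.sum_congr rfl fun i _ => ?_
    rw [← Finset.sum_sub_distrib]
    refine Finset.sum_congr rfl fun x _ => ?_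
    ring
  rw [e1]
  refine bdry φ e (2 * L) he (by linarith) hout
    (fun i x => (X j (x + Pi.single i 1) - X j x) - if i = j then 1 else 0) ?_ ?_
  · intro i x hx
    by_cases hij : i = j
    · subst hij
      simp only [if_true]
      rw [X_step i x hx]
      ring
    · simp only [if_neg hij]
      rw [X_step_ne i j hij]
      ring
  · intro i x
    have a1 := abs_le.1 (X_bound j (x + Pi.single i 1))
    have a2 := abs_le.1 (X_bound j x)
    rw [abs_le]
    split_ifs
    · constructor <;> linarith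
    · constructor <;> linarith

/-- the square of the distance -/
noncomputable def Q (x : T d L) : ℝ := ∑ j, X j x ^ 2

theorem Q_step (i : Fin d) (x : T d L) :
    Q (x + Pi.single i 1) - Q x = X i (x + Pi.single i 1) ^ 2 - X i x ^ 2 := by
  unfold Q
  rw [← Finset.sum_sub_distrib, Finset.sum_eq_single i]
  · intro j _ hj
    rw [X_step_ne i j (Ne.symm hj)]
    ring
  · intro hn
    exact absurd (Finset.mem_univ _) hn

/-- the derivative of the second moment -/
theorem second_cur (φ : XT d L) (e : ℝ) (he : 0 ≤ e) (hout : outm φ ≤ e ^ 2) :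
    |(∑ i : Fin d, ∑ x, (Q (x + Pi.single i 1) - Q x) * J φ i x) -
      ∑ i : Fin d, ∑ x, (2 * X i x + 1) * J φ i x| ≤ d * (3 * (L : ℝ) ^ 2 * (e * ‖φ‖)) := by
  have hL := L_one' (L := L)
  have e1 : (∑ i : Fin d, ∑ x, (Q (x + Pi.single i 1) - Q x) * J φ i x) -
      ∑ i : Fin d, ∑ x, (2 * X i x + 1) * J φ i x =
      ∑ i : Fin d, ∑ x, ((Q (x + Pi.single i 1) - Q x) - (2 * X i x + 1)) * J φ i x := by
    rw [← Finset.sum_sub_distrib]
    refine Finset.sum_congr rfl fun i _ => ?_
    rw [← Finset.sum_sub_distrib]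
    refine Finset.sum_congr rfl fun x _ => ?_
    ring
  rw [e1]
  refine bdry φ e (3 * (L : ℝ) ^ 2) he (by positivity) hout
    (fun i x => (Q (x + Pi.single i 1) - Q x) - (2 * X i x + 1)) ?_ ?_
  · intro i x hx
    rw [Q_step, X_step i x hx]
    ring
  · intro i x
    rw [Q_step]
    have a1 := abs_le.1 (X_bound i (x + Pi.single i 1))
    have a2 := abs_le.1 (X_bound i x)
    have a3 : X i (x + Pi.single i 1) ^ 2 ≤ (L / 2 : ℝ) ^ 2 :=
      sq_le_sq' (by linarith [a1.1]) a1.2
    have a4 : X i x ^ 2 ≤ (L / 2 : ℝ) ^ 2 := sq_le_sq' (by linarith [a2.1]) a2.2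
    have a5 := sq_nonneg (X i (x + Pi.single i 1))
    have a6 := sq_nonneg (X i x)
    have a7 : (L : ℝ) ≤ (L : ℝ) ^ 2 := by nlinarith
    have a8 : ((L : ℝ) / 2) ^ 2 = (L : ℝ) ^ 2 / 4 := by ring
    rw [a8] at a3 a4
    rw [abs_le]
    constructor <;> linarith

end Pool.Agent.V8H95.BW
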